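import Pool.Agent.W784.HS.E

set_option autoImplicit false
open MeasureTheory Set Filter Topology
open scoped ENNReal

/-! The hollow solid. -/

namespace Pool.Agent.W784.HS

open Pool.Agent.H283R3.Newt

theorem ball_shrink {q : E3} (hq : ‖q‖ ≤ 1/100) {x : E3} (hx : x ∈ Metric.closedBall q 1) {t : ℝ}
    (ht0 : 0 ≤ t) (ht1 : t < 1) : t • x ∈ Metric.ball q 1 := by
  rw [Metric.mem_closedBall, dist_eq_norm] at hx
  rw [Metric.mem_ball, dist_eq_norm]
  have h1 : t • x - q = t • (x - q) + (-(1 - t)) • q := by module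
  calc ‖t • x - q‖ ≤ ‖t • (x - q)‖ + ‖(-(1 - t)) • q‖ := by rw [h1]; exact norm_add_le _ _
    _ = t * ‖x - q‖ + (1 - t) * ‖q‖ := by
        rw [norm_smul, norm_smul, Real.norm_of_nonneg ht0, norm_neg, Real.norm_of_nonneg (by linarith)]
    _ ≤ t * 1 + (1 - t) * (1/100) := by
        have := mul_le_mul_of_nonneg_left hx ht0
        have := mul_le_mul_of_nonneg_left hq (by linarith : 0 ≤ 1 - t)
        linarith
    _ < 1 := by nlinarith

/-- the closed union -/
def KK : Set E3 := Metric.closedBall pc 1 ∪ Metric.closedBall (-pc) 1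

theorem KK_shrink {x : E3} (hx : x ∈ KK) {t : ℝ} (ht0 : 0 ≤ t) (ht1 : t < 1) : t • x ∈ QQ := by
  rcases hx with hx | hx
  · left; exact ball_shrink norm_pc.le hx ht0 ht1
  · right; exact ball_shrink (by rw [norm_neg]; exact norm_pc.le) hx ht0 ht1

theorem QQ_sub_int : QQ ⊆ interior KK :=
  interior_maximal (union_subset_union Metric.ball_subset_closedBall Metric.ball_subset_closedBall)
    QQ_open

theorem KK_SS : SS KK where
  comp := (isCompact_closedBall _ _).union (isCompact_closedBall _ _)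
  ne := ⟨pc, Or.inl (Metric.mem_closedBall_self zero_le_one)⟩
  star := fun _ hx _ ht0 ht1 => QQ_sub_int (KK_shrink hx ht0 ht1)

theorem QQ_eq : interior KK = QQ := by
  apply Subset.antisymm _ QQ_sub_int
  intro y hy
  have hcont : Continuous (fun t : ℝ => t • y) := by fun_prop
  have h1 : ∀ᶠ s in 𝓝 (1:ℝ), s • y ∈ interior KK :=
    hcont.continuousAt.eventually (isOpen_interior.mem_nhds (by simpa using hy))
  have h2 : ∀ᶠ s in 𝓝[>] (1:ℝ), s • y ∈ interior KK := h1.filter_mono nhdsWithin_le_nhds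
  obtain ⟨s, hs, hgt⟩ := (h2.and self_mem_nhdsWithin).exists
  have hs1 : (1:ℝ) < s := hgt
  have h3 := KK_shrink (interior_subset hs) (t := s⁻¹) (by positivity) (inv_lt_one_of_one_lt₀ hs1)
  rwa [smul_smul, inv_mul_cancel₀ (by positivity), one_smul] at h3

theorem V_ind {S : Set E3} (x : E3) :
    V (S.indicator 1) x = ∫ y, S.indicator 1 y * (dist x y)⁻¹ := rfl

theorem V_ball {r : ℝ} (hr : 0 < r) (x : E3) : V ((Metric.ball (0:E3) r).indicator 1) x = Nn r ‖x‖ := by
  rw [← dist_zero_right x, ← ball_pot hr 0 x, ← integral_indicator Metric.isOpen_ball.measurableSet]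
  unfold V
  congr 1
  funext y
  by_cases hy : y ∈ Metric.ball (0:E3) r
  · rw [indicator_of_mem hy, indicator_of_mem hy]; simp
  · rw [indicator_of_notMem hy, indicator_of_notMem hy]; simp

theorem V_mono {R : ℝ} (hR : 0 < R) {a b : E3 → ℝ} (ha : Good R a) (hb : Good R b)
    (h : ∀ᵐ y : E3, a y ≤ b y) (x : E3) : V a x ≤ V b x := by
  unfold V
  apply integral_mono_ae (ha.int_kern hR x) (hb.int_kern hR x)
  filter_upwards [h] with y hy
  exact mul_le_mul_of_nonneg_right hy (inv_nonneg.2 dist_nonneg)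

theorem good_ind {R : ℝ} {S : Set E3} (hS : MeasurableSet S) (h : S ⊆ Metric.ball (0:E3) R) :
    Good R (S.indicator 1) :=
  ⟨measurable_one.indicator hS, fun y => by rw [abs_of_nonneg (ind_nonneg y)]; exact ind_mono h y⟩

theorem exists_far {τ : E3 → ℝ} (h1 : Ad QQ τ) (h2 : ∀ᵐ x : E3, V τ x < cc → τ x = QQ.indicator 1 x)
    (h3 : ∀ x, V τ x ≤ cc) : ∃ x, cc ≤ V τ x ∧ 2/5 ≤ ‖x‖ := by
  by_contra hcon
  push Not at hcon
  have hR : (0:ℝ) < 101/100 := by norm_num
  have gτ := h1.good QQ_sub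
  have gQ : Good (101/100) (QQ.indicator 1) := good_ind QQ_open.measurableSet QQ_sub
  have g1 : Good (101/100) ((Metric.ball (0:E3) (99/100)).indicator 1) :=
    good_ind Metric.isOpen_ball.measurableSet (Metric.ball_subset_ball (by norm_num))
  have g2 : Good (101/100) ((Metric.ball (0:E3) (2/5)).indicator 1) :=
    good_ind Metric.isOpen_ball.measurableSet (Metric.ball_subset_ball (by norm_num))
  have gd : Good (101/100) (fun x => QQ.indicator 1 x + (-1) * τ x) := by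
    refine ⟨gQ.meas.add (gτ.meas.const_mul (-1)), fun y => ?_⟩
    have := h1.2 y
    rw [abs_of_nonneg (by linarith)]
    have := ind_mono QQ_sub y
    linarith
  have e1 : V (fun x => QQ.indicator 1 x + (-1) * τ x) 0 = V (QQ.indicator 1) 0 + (-1) * V τ 0 :=
    V_lin hR gQ gτ (-1) 0
  have e2 : V ((Metric.ball (0:E3) (99/100)).indicator 1) 0 ≤ V (QQ.indicator 1) 0 :=
    V_mono hR g1 gQ (Eventually.of_forall fun y =>
      indicator_le_indicator_of_subset sub_QQ (fun _ => zero_le_one) y) 0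
  have e3 : V (fun x => QQ.indicator 1 x + (-1) * τ x) 0 ≤ V ((Metric.ball (0:E3) (2/5)).indicator 1) 0 := by
    apply V_mono hR gd g2
    filter_upwards [h2] with y hy
    by_cases hlt : V τ y < cc
    · rw [hy hlt]
      have := ind_nonneg (Q := Metric.ball (0:E3) (2/5)) y
      linarith
    · have hy' := hcon y (not_lt.1 hlt)
      rw [indicator_of_mem (mem_ball_zero_iff.2 hy')]
      have := (h1.2 y).1
      have := ind_le_one (Q := QQ) y
      simp only [Pi.one_apply]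
      linarith
  rw [V_ball (by norm_num), norm_zero, Nn, if_pos (by norm_num)] at e2 e3
  have h4 := h3 0
  unfold cc at h4
  have hpi := Real.pi_pos
  nlinarith

theorem lam_SS {τ : E3 → ℝ} (h1 : Ad QQ τ) (h2 : ∀ᵐ x : E3, V τ x < cc → τ x = QQ.indicator 1 x)
    (h3 : ∀ x, V τ x ≤ cc)
    (h4 : ∀ x y : E3, ‖x - y‖ / 50 ≤ ‖x‖ ^ 2 - ‖y‖ ^ 2 → V τ x ≤ V τ y) :
    SS {x | cc ≤ V τ x} := by
  have hR : (0:ℝ) < 101/100 := by norm_num
  have gτ := h1.good QQ_sub
  obtain ⟨x0, hx0, hn0⟩ := exists_far h1 h2 h3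
  have hb : Metric.ball (0:E3) (3/10) ⊆ {x | cc ≤ V τ x} := by
    intro y hy
    rw [mem_ball_zero_iff] at hy
    refine hx0.trans (h4 x0 y ?_)
    have h5 : ‖x0 - y‖ ≤ ‖x0‖ + ‖y‖ := norm_sub_le _ _
    nlinarith [norm_nonneg x0, norm_nonneg y]
  refine ⟨gτ.compact_ge hR cc_pos, ⟨x0, hx0⟩, fun x hx t ht0 ht1 => ?_⟩
  by_cases hxn : ‖x‖ < 3/10
  · apply interior_maximal hb Metric.isOpen_ball
    rw [mem_ball_zero_iff, norm_smul, Real.norm_of_nonneg ht0]
    have := norm_nonneg x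
    nlinarith
  · push Not at hxn
    have hopen : IsOpen {y : E3 | ‖x - y‖ / 50 < ‖x‖ ^ 2 - ‖y‖ ^ 2} :=
      isOpen_lt (by fun_prop) (by fun_prop)
    have hsub : {y : E3 | ‖x - y‖ / 50 < ‖x‖ ^ 2 - ‖y‖ ^ 2} ⊆ {x | cc ≤ V τ x} := by
      intro y hy
      exact le_trans hx (h4 x y (le_of_lt hy))
    apply interior_maximal hsub hopen
    show ‖x - t • x‖ / 50 < ‖x‖ ^ 2 - ‖t • x‖ ^ 2
    have e1 : x - t • x = (1 - t) • x := by module
    rw [e1, norm_smul, norm_smul, Real.norm_of_nonneg ht0, Real.norm_of_nonneg (by linarith)]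
    have h5 : 0 < (1 - t) * ‖x‖ := mul_pos (by linarith) (by linarith)
    have h6 : 0 < (1 + t) * ‖x‖ - 1/50 := by nlinarith
    nlinarith [mul_pos h5 h6]

theorem lam_sub {τ : E3 → ℝ} (h1 : Ad QQ τ) : {x | cc ≤ V τ x} ⊆ QQ := by
  have hR : (0:ℝ) < 101/100 := by norm_num
  intro x hx
  apply sub_QQ
  rw [mem_ball_zero_iff]
  by_contra hcon
  push Not at hcon
  have h2 : cc ≤ V τ x := hx
  have h3 := (le_abs_self _).trans ((h1.good QQ_sub).V_abs_le hR x)
  have hpi := Real.pi_pos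
  unfold Nn at h3
  unfold cc at h2
  split_ifs at h3 with h4
  · nlinarith [mul_nonneg hpi.le (by nlinarith : (0:ℝ) ≤ ‖x‖ ^ 2 - (99/100)^2)]
  · push Not at h4
    have h5 : 4 * Real.pi / 3 * (101/100) ^ 3 / ‖x‖ ≤ 4 * Real.pi / 3 * (101/100) ^ 3 / (101/100) := by
      apply div_le_div_of_nonneg_left (by positivity) (by norm_num) h4
    nlinarith

/-- the height of the line -/
noncomputable def hh : ℝ := √(1 - (1/200) ^ 2)

theorem hh_sq : hh ^ 2 = 1 - (1/200) ^ 2 := Real.sq_sqrt (by norm_num)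

noncomputable def vv (t : ℝ) : E3 := !₂[t, hh, 0]

theorem vv_pc (t : ℝ) : ‖vv t - pc‖ ^ 2 = (t - 1/100) ^ 2 + hh ^ 2 := by
  rw [EuclideanSpace.norm_sq_eq, Fin.sum_univ_three]
  simp [vv, pc]

theorem vv_mpc (t : ℝ) : ‖vv t - -pc‖ ^ 2 = (t + 1/100) ^ 2 + hh ^ 2 := by
  rw [EuclideanSpace.norm_sq_eq, Fin.sum_univ_three]
  simp [vv, pc]

theorem vv_mem {t : ℝ} (h : (t - 1/100) ^ 2 ≤ (1/200) ^ 2 ∨ (t + 1/100) ^ 2 ≤ (1/200) ^ 2) :
    vv t ∈ KK := by
  have := hh_sq
  rcases h with h | h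
  · left
    rw [Metric.mem_closedBall, dist_eq_norm]
    have h1 := vv_pc t
    refine le_of_sq_le_sq ?_ zero_le_one
    linarith
  · right
    rw [Metric.mem_closedBall, dist_eq_norm]
    have h1 := vv_mpc t
    refine le_of_sq_le_sq ?_ zero_le_one
    linarith

theorem vv_notMem {t : ℝ} (h1 : (1/200) ^ 2 ≤ (t - 1/100) ^ 2) (h2 : (1/200) ^ 2 ≤ (t + 1/100) ^ 2) :
    vv t ∉ QQ := by
  have := hh_sq
  rintro (h | h)
  · rw [Metric.mem_ball, dist_eq_norm] at h
    have h3 := vv_pc t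
    nlinarith [norm_nonneg (vv t - pc)]
  · rw [Metric.mem_ball, dist_eq_norm] at h
    have h3 := vv_mpc t
    nlinarith [norm_nonneg (vv t - -pc)]

theorem main : ∃ U T₁ : Set E3,
    Nonempty ((frontier U : Set E3) ≃ₜ Metric.sphere (0 : E3) 1) ∧
    Nonempty ((frontier T₁ : Set E3) ≃ₜ Metric.sphere (0 : E3) 1) ∧
    IsOpen U ∧ IsConnected U ∧ Bornology.IsBounded U ∧
    IsOpen T₁ ∧ IsConnected T₁ ∧ Bornology.IsBounded T₁ ∧
    closure T₁ ⊆ U ∧
    (∃ c : ℝ, ∀ P ∈ T₁, ∫ M in U \ closure T₁, (dist P M)⁻¹ = c) ∧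
    ∃ A B C : E3, A ∈ frontier U ∧ B ∈ frontier U ∧ C ∈ frontier U ∧ A ≠ C ∧
      B = (1/2 : ℝ) • (A + C) := by
  have hR : (0:ℝ) < 101/100 := by norm_num
  obtain ⟨τ, h1, h2, h3, h4⟩ := exists_rho
  have gτ := h1.good QQ_sub
  have hS := lam_SS h1 h2 h3 h4
  set L : Set E3 := {x | cc ≤ V τ x} with hL
  have hV : ∀ x ∈ L, V τ x = cc := fun x hx => le_antisymm (h3 x) hx
  have hfrU : frontier QQ = KK \ interior KK := by
    rw [← QQ_eq, KK_SS.frontier_interior]
  refine ⟨QQ, interior L, ?_, ?_, QQ_open, ?_, ?_, isOpen_interior, hS.connected, ?_, ?_, ?_, ?_⟩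
  · rw [hfrU]; exact KK_SS.homeo
  · rw [hS.frontier_interior]; exact hS.homeo
  · rw [← QQ_eq]; exact KK_SS.connected
  · exact Metric.isBounded_ball.subset QQ_sub
  · exact hS.comp.isBounded.subset interior_subset
  · rw [hS.closure_interior]; exact lam_sub h1
  · refine ⟨cc, fun P hP => ?_⟩
    rw [hS.closure_interior, ← hV P (interior_subset hP)]
    have hms : MeasurableSet (QQ \ L) := QQ_open.measurableSet.diff hS.comp.isClosed.measurableSet
    rw [← integral_indicator hms]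
    unfold V
    apply integral_congr_ae
    have hz := interior_zero hR gτ (fun x => (h1.2 x).1) hV
    have hz' : ∀ᵐ y : E3, ¬ (y ∈ interior L ∧ τ y ≠ 0) := by
      rw [ae_iff]; simpa using hz
    have hnull : ∀ᵐ y : E3, ¬ (y ∈ L \ interior L) :=
      measure_eq_zero_iff_ae_notMem.1 hS.null
    filter_upwards [h2, hz', hnull] with y hy1 hy2 hy3
    by_cases hyL : y ∈ L
    · have hyi : y ∈ interior L := by
        by_contra hc
        exact hy3 ⟨hyL, hc⟩
      have : τ y = 0 := by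
        by_contra hc
        exact hy2 ⟨hyi, hc⟩
      rw [this, zero_mul, indicator_of_notMem]
      exact fun hc => hc.2 hyL
    · have hlt : V τ y < cc := not_le.1 hyL
      rw [hy1 hlt]
      by_cases hyQ : y ∈ QQ
      · rw [indicator_of_mem (show y ∈ QQ \ L from ⟨hyQ, hyL⟩), indicator_of_mem hyQ]
        simp
      · rw [indicator_of_notMem (fun hc => hyQ hc.1), indicator_of_notMem hyQ, zero_mul]
  · have hmem : ∀ t : ℝ, ((t - 1/100) ^ 2 ≤ (1/200) ^ 2 ∨ (t + 1/100) ^ 2 ≤ (1/200) ^ 2) →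
        (1/200) ^ 2 ≤ (t - 1/100) ^ 2 → (1/200) ^ 2 ≤ (t + 1/100) ^ 2 → vv t ∈ frontier QQ := by
      intro t ha hb hc
      rw [hfrU, QQ_eq]
      exact ⟨vv_mem ha, vv_notMem hb hc⟩
    refine ⟨vv (3/200), vv (1/200), vv (-(1/200)), hmem _ (Or.inl (by norm_num)) (by norm_num)
      (by norm_num), hmem _ (Or.inl (by norm_num)) (by norm_num) (by norm_num),
      hmem _ (Or.inr (by norm_num)) (by norm_num) (by norm_num), ?_, ?_⟩
    · intro h
      have := congrArg (fun v : E3 => v 0) h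
      simp [vv] at this
      norm_num at this
    · ext i
      fin_cases i <;> simp [vv] <;> norm_num
      ring

end Pool.Agent.W784.HS
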