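import Pool.Agent.H283R3.Newt3

set_option autoImplicit false
open MeasureTheory Set Filter Topology
open scoped ENNReal

/-! Positivity of the Coulomb energy of bounded densities with bounded support. -/

namespace Pool.Agent.W784.HS

open Pool.Agent.H283R3.Newt

theorem good_abs {R : ℝ} {h : E3 → ℝ} (hh : Good R h) : Good R (fun x => |h x|) :=
  ⟨hh.meas.abs, fun y => by rw [abs_abs]; exact hh.bd y⟩

theorem good_bound {R : ℝ} (hR : 0 < R) {h : E3 → ℝ} (hh : Good R h) :
    ∃ B : ℝ, ∀ x : E3, Integrable (fun y => h y / ‖x - y‖) ∧ ∫ y, |h y| / ‖x - y‖ ≤ B := by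
  refine ⟨2 * Real.pi * R ^ 2, fun x => ⟨?_, ?_⟩⟩
  · have := hh.int_kern hR x
    simpa only [div_eq_mul_inv, dist_eq_norm] using this
  · have h1 := (good_abs hh).V_abs_le hR x
    have h2 := Nn_le hR (norm_nonneg x)
    have h3 : V (fun x => |h x|) x = ∫ y, |h y| / ‖x - y‖ := by
      unfold V
      simp only [div_eq_mul_inv, dist_eq_norm]
    rw [← h3]
    exact (le_abs_self _).trans (h1.trans h2)

theorem TF_coulomb_pd_gpos (b : ℝ) (hb : 0 < b) : 0 < ∫ v : E3, Real.exp (-b * ‖v‖^2) := by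
  rw [GaussianFourier.integral_rexp_neg_mul_sq_norm hb]
  positivity

theorem TF_coulomb_pd_gint (b : ℝ) (hb : 0 < b) :
    Integrable (fun v : E3 => Real.exp (-b * ‖v‖^2)) := by
  by_contra hc
  have := TF_coulomb_pd_gpos b hb
  rw [integral_undef hc] at this
  exact lt_irrefl _ this

theorem TF_coulomb_pd_par (τ : ℝ) (x y w : E3) :
    Real.exp (-(2*τ) * ‖x - w‖^2) * Real.exp (-(2*τ) * ‖y - w‖^2)
      = Real.exp (-τ * ‖x - y‖^2) * Real.exp (-(4*τ) * ‖w - (1/2 : ℝ) • (x + y)‖^2) := by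
  have h := parallelogram_law_with_norm ℝ (x - w) (y - w)
  have h1 : (x - w) + (y - w) = -((2:ℝ) • (w - (1/2 : ℝ) • (x + y))) := by
    module
  have h2 : (x - w) - (y - w) = x - y := by abel
  rw [h1, h2, norm_neg, norm_smul] at h
  rw [← Real.exp_add, ← Real.exp_add]
  congr 1
  have h3 : ‖(2:ℝ)‖ = 2 := by norm_num
  rw [h3] at h
  linear_combination τ * h

theorem TF_coulomb_pd_gauss (h : E3 → ℝ) (hm : Measurable h) (hi : Integrable h) (τ : ℝ)
    (hτ : 0 < τ) :
    0 ≤ ∫ p : E3 × E3, h p.1 * h p.2 * Real.exp (-τ * ‖p.1 - p.2‖^2)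
      ∂((volume : Measure E3).prod (volume : Measure E3)) := by
  obtain ⟨G, hG⟩ : ∃ G : ℝ, G = ∫ v : E3, Real.exp (-(4*τ) * ‖v‖^2) := ⟨_, rfl⟩
  have hGpos : 0 < G := hG ▸ TF_coulomb_pd_gpos (4*τ) (by positivity)
  have hGint := TF_coulomb_pd_gint (4*τ) (by positivity)
  have hfun : ∀ p : E3 × E3, (fun w : E3 => (h p.1 * Real.exp (-(2*τ) * ‖p.1 - w‖^2))
      * (h p.2 * Real.exp (-(2*τ) * ‖p.2 - w‖^2)))
      = fun w => (h p.1 * h p.2 * Real.exp (-τ * ‖p.1 - p.2‖^2))
        * Real.exp (-(4*τ) * ‖w - (1/2 : ℝ) • (p.1 + p.2)‖^2) := by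
    intro p
    funext w
    have := TF_coulomb_pd_par τ p.1 p.2 w
    linear_combination (h p.1 * h p.2) * this
  have hshift : ∀ c : E3, ∫ w : E3, Real.exp (-(4*τ) * ‖w - c‖^2) = G := by
    intro c
    rw [hG]
    exact integral_sub_right_eq_self (fun v : E3 => Real.exp (-(4*τ) * ‖v‖^2)) c
  have hshifti : ∀ c : E3, Integrable (fun w : E3 => Real.exp (-(4*τ) * ‖w - c‖^2)) := by
    intro c
    exact hGint.comp_sub_right c
  have hinner : ∀ p : E3 × E3, ∫ w : E3, (h p.1 * Real.exp (-(2*τ) * ‖p.1 - w‖^2))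
      * (h p.2 * Real.exp (-(2*τ) * ‖p.2 - w‖^2))
      = h p.1 * h p.2 * Real.exp (-τ * ‖p.1 - p.2‖^2) * G := by
    intro p
    rw [hfun p, integral_const_mul, hshift]
  have hm1 : Measurable (fun q : (E3 × E3) × E3 => h q.1.1) :=
    hm.comp (measurable_fst.comp measurable_fst)
  have hm2 : Measurable (fun q : (E3 × E3) × E3 => h q.1.2) :=
    hm.comp (measurable_snd.comp measurable_fst)
  have hm3 : Measurable (fun q : (E3 × E3) × E3 => Real.exp (-(2*τ) * ‖q.1.1 - q.2‖^2)) := by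
    fun_prop
  have hm4 : Measurable (fun q : (E3 × E3) × E3 => Real.exp (-(2*τ) * ‖q.1.2 - q.2‖^2)) := by
    fun_prop
  have hΦm : Measurable (fun q : (E3 × E3) × E3 =>
      (h q.1.1 * Real.exp (-(2*τ) * ‖q.1.1 - q.2‖^2))
      * (h q.1.2 * Real.exp (-(2*τ) * ‖q.1.2 - q.2‖^2))) := (hm1.mul hm3).mul (hm2.mul hm4)
  have hΦi : Integrable (fun q : (E3 × E3) × E3 =>
      (h q.1.1 * Real.exp (-(2*τ) * ‖q.1.1 - q.2‖^2))
      * (h q.1.2 * Real.exp (-(2*τ) * ‖q.1.2 - q.2‖^2)))
      (((volume : Measure E3).prod (volume : Measure E3)).prod (volume : Measure E3)) := by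
    rw [integrable_prod_iff hΦm.aestronglyMeasurable]
    constructor
    · filter_upwards with p
      have := hfun p
      simp only [this]
      exact (hshifti _).const_mul _
    · have hc : (fun p : E3 × E3 => ∫ w : E3, ‖(h p.1 * Real.exp (-(2*τ) * ‖p.1 - w‖^2))
          * (h p.2 * Real.exp (-(2*τ) * ‖p.2 - w‖^2))‖)
          = fun p => ‖h p.1 * h p.2‖ * (Real.exp (-τ * ‖p.1 - p.2‖^2) * G) := by
        funext p
        have h1 : (fun w : E3 => ‖(h p.1 * Real.exp (-(2*τ) * ‖p.1 - w‖^2))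
          * (h p.2 * Real.exp (-(2*τ) * ‖p.2 - w‖^2))‖)
          = fun w => (‖h p.1 * h p.2‖ * Real.exp (-τ * ‖p.1 - p.2‖^2))
            * Real.exp (-(4*τ) * ‖w - (1/2 : ℝ) • (p.1 + p.2)‖^2) := by
          funext w
          have := congrFun (hfun p) w
          rw [this, norm_mul, norm_mul, Real.norm_of_nonneg (Real.exp_pos _).le,
            Real.norm_of_nonneg (Real.exp_pos _).le]
        rw [h1, integral_const_mul, hshift]
        ring
      simp only
      rw [hc]
      have hpr : Integrable (fun p : E3 × E3 => h p.1 * h p.2)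
          ((volume : Measure E3).prod (volume : Measure E3)) := hi.mul_prod hi
      have hmm : Measurable (fun p : E3 × E3 => Real.exp (-τ * ‖p.1 - p.2‖^2) * G) := by
        fun_prop
      refine Integrable.mono' (hpr.norm.mul_const G)
        (hpr.norm.aestronglyMeasurable.mul hmm.aestronglyMeasurable) ?_
      filter_upwards with p
      rw [norm_mul, norm_norm, Real.norm_of_nonneg
        (show 0 ≤ Real.exp (-τ * ‖p.1 - p.2‖^2) * G by positivity)]
      refine mul_le_mul_of_nonneg_left ?_ (norm_nonneg _)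
      have : Real.exp (-τ * ‖p.1 - p.2‖^2) ≤ 1 := by
        rw [Real.exp_le_one_iff]
        have : 0 ≤ τ * ‖p.1 - p.2‖^2 := by positivity
        linarith
      nlinarith
  have hswap := integral_integral_swap (μ := (volume : Measure E3).prod (volume : Measure E3))
    (ν := (volume : Measure E3)) (f := fun (p : E3 × E3) (w : E3) =>
      (h p.1 * Real.exp (-(2*τ) * ‖p.1 - w‖^2)) * (h p.2 * Real.exp (-(2*τ) * ‖p.2 - w‖^2))) hΦi
  have hL : (∫ p : E3 × E3, h p.1 * h p.2 * Real.exp (-τ * ‖p.1 - p.2‖^2)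
      ∂((volume : Measure E3).prod (volume : Measure E3))) * G
      = ∫ w : E3, ∫ p : E3 × E3, (h p.1 * Real.exp (-(2*τ) * ‖p.1 - w‖^2))
        * (h p.2 * Real.exp (-(2*τ) * ‖p.2 - w‖^2))
          ∂((volume : Measure E3).prod (volume : Measure E3)) := by
    rw [← hswap, ← integral_mul_const]
    refine integral_congr_ae (Filter.Eventually.of_forall fun p => ?_)
    exact (hinner p).symm
  have hR : 0 ≤ ∫ w : E3, ∫ p : E3 × E3, (h p.1 * Real.exp (-(2*τ) * ‖p.1 - w‖^2))
        * (h p.2 * Real.exp (-(2*τ) * ‖p.2 - w‖^2))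
          ∂((volume : Measure E3).prod (volume : Measure E3)) := by
    refine integral_nonneg fun w => ?_
    have := integral_prod_mul (μ := (volume : Measure E3)) (ν := (volume : Measure E3))
      (fun x : E3 => h x * Real.exp (-(2*τ) * ‖x - w‖^2))
      (fun x : E3 => h x * Real.exp (-(2*τ) * ‖x - w‖^2))
    simp only [Pi.zero_apply]
    rw [this]
    exact mul_self_nonneg _
  rw [← hL] at hR
  exact nonneg_of_mul_nonneg_left hR hGpos

theorem TF_coulomb_pd_diag :
    ∀ᵐ p : E3 × E3 ∂((volume : Measure E3).prod (volume : Measure E3)), p.1 ≠ p.2 := by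
  have hs : MeasurableSet {p : E3 × E3 | p.1 = p.2} :=
    measurableSet_eq_fun measurable_fst measurable_snd
  have h0 : ((volume : Measure E3).prod (volume : Measure E3)) {p : E3 × E3 | p.1 = p.2} = 0 := by
    rw [Measure.measure_prod_null hs]
    filter_upwards with x
    have : (Prod.mk x ⁻¹' {p : E3 × E3 | p.1 = p.2}) = {x} := by
      ext y
      simp [eq_comm]
    rw [this]
    simp
  rw [ae_iff]
  simpa using h0

theorem TF_coulomb_pd_sub (r : ℝ) (hr : 0 < r) :
    ∫ t in Ioi (0:ℝ), t^((1/2:ℝ)-1) * Real.exp (-(r^2 * t)) = √Real.pi / r := by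
  rw [Real.integral_rpow_mul_exp_neg_mul_Ioi (by norm_num) (by positivity), Real.Gamma_one_half_eq,
    ← Real.sqrt_eq_rpow, Real.sqrt_div zero_le_one, Real.sqrt_one, Real.sqrt_sq hr.le]
  ring

theorem TF_coulomb_pd_subi (r : ℝ) (hr : 0 < r) :
    IntegrableOn (fun t : ℝ => t^((1/2:ℝ)-1) * Real.exp (-(r^2 * t))) (Ioi 0) := by
  by_contra hc
  have h1 := TF_coulomb_pd_sub r hr
  rw [integral_undef hc] at h1
  have : 0 < √Real.pi / r := by positivity
  exact absurd h1 this.ne

theorem coulomb_pd (h : E3 → ℝ) {R : ℝ} (hRp : 0 < R) (hh : Good R h) : 0 ≤ ∫ x, ∫ y, h x * h y / ‖x - y‖ := by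
  obtain ⟨B, hB⟩ := good_bound hRp hh
  have hm := hh.meas
  have hi := hh.integrable hRp
  have hm1 : Measurable (fun p : E3 × E3 => h p.1) := hm.comp measurable_fst
  have hm2 : Measurable (fun p : E3 × E3 => h p.2) := hm.comp measurable_snd
  have hPm : Measurable (fun p : E3 × E3 => h p.1 * h p.2 / ‖p.1 - p.2‖) :=
    (hm1.mul hm2).div (measurable_fst.sub measurable_snd).norm
  have hPi : Integrable (fun p : E3 × E3 => h p.1 * h p.2 / ‖p.1 - p.2‖)
      ((volume : Measure E3).prod (volume : Measure E3)) := by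
    rw [integrable_prod_iff hPm.aestronglyMeasurable]
    constructor
    · filter_upwards with x
      have := ((hB x).1).const_mul (h x)
      refine this.congr (Filter.Eventually.of_forall fun y => ?_)
      simp only
      ring
    · have hcongr : (fun x : E3 => ∫ y : E3, ‖h x * h y / ‖x - y‖‖)
          = fun x => |h x| * ∫ y, |h y| / ‖x - y‖ := by
        funext x
        rw [← integral_const_mul]
        refine integral_congr_ae (Filter.Eventually.of_forall fun y => ?_)
        simp only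
        rw [Real.norm_eq_abs, abs_div, abs_mul, abs_norm]
        ring
      have hmeas : AEStronglyMeasurable (fun x : E3 => ∫ y : E3, ‖h x * h y / ‖x - y‖‖) volume :=
        (hPm.aestronglyMeasurable (μ := (volume : Measure E3).prod (volume : Measure E3))).norm.integral_prod_right'
      refine Integrable.mono' (hi.abs.mul_const B) hmeas ?_
      filter_upwards with x
      have hx := congrFun hcongr x
      rw [hx, Real.norm_eq_abs, abs_mul, abs_abs,
        abs_of_nonneg (integral_nonneg fun y => by positivity)]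
      exact mul_le_mul_of_nonneg_left (hB x).2 (abs_nonneg _)
  have hiter : ∫ x, ∫ y, h x * h y / ‖x - y‖
      = ∫ p : E3 × E3, h p.1 * h p.2 / ‖p.1 - p.2‖
        ∂((volume : Measure E3).prod (volume : Measure E3)) := (integral_prod _ hPi).symm
  rw [hiter]
  have hin : ∀ p : E3 × E3, p.1 ≠ p.2 →
      ∫ t in Ioi (0:ℝ), h p.1 * h p.2 * (t^((1/2:ℝ)-1) * Real.exp (-(‖p.1 - p.2‖^2 * t)))
        = √Real.pi * (h p.1 * h p.2 / ‖p.1 - p.2‖) := by
    intro p hp
    rw [integral_const_mul, TF_coulomb_pd_sub _ (norm_pos_iff.mpr (sub_ne_zero.mpr hp))]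
    ring
  have hΨm : Measurable (fun q : (E3 × E3) × ℝ =>
      h q.1.1 * h q.1.2 * (q.2^((1/2:ℝ)-1) * Real.exp (-(‖q.1.1 - q.1.2‖^2 * q.2)))) := by
    have a1 : Measurable (fun q : (E3 × E3) × ℝ => h q.1.1) :=
      hm.comp (measurable_fst.comp measurable_fst)
    have a2 : Measurable (fun q : (E3 × E3) × ℝ => h q.1.2) :=
      hm.comp (measurable_snd.comp measurable_fst)
    have a3 : Measurable (fun q : (E3 × E3) × ℝ => q.2^((1/2:ℝ)-1)) :=
      measurable_snd.pow_const _
    have a4 : Measurable (fun q : (E3 × E3) × ℝ => Real.exp (-(‖q.1.1 - q.1.2‖^2 * q.2))) := by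
      fun_prop
    exact (a1.mul a2).mul (a3.mul a4)
  have hΨi : Integrable (fun q : (E3 × E3) × ℝ =>
      h q.1.1 * h q.1.2 * (q.2^((1/2:ℝ)-1) * Real.exp (-(‖q.1.1 - q.1.2‖^2 * q.2))))
      (((volume : Measure E3).prod (volume : Measure E3)).prod
        ((volume : Measure ℝ).restrict (Ioi 0))) := by
    rw [integrable_prod_iff hΨm.aestronglyMeasurable]
    constructor
    · filter_upwards [TF_coulomb_pd_diag] with p hp
      exact (TF_coulomb_pd_subi _ (norm_pos_iff.mpr (sub_ne_zero.mpr hp))).const_mul _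
    · refine (hPi.norm.const_mul (√Real.pi)).congr ?_
      filter_upwards [TF_coulomb_pd_diag] with p hp
      have h1 : ∫ t in Ioi (0:ℝ),
          ‖h p.1 * h p.2 * (t^((1/2:ℝ)-1) * Real.exp (-(‖p.1 - p.2‖^2 * t)))‖
          = ∫ t in Ioi (0:ℝ),
            ‖h p.1 * h p.2‖ * (t^((1/2:ℝ)-1) * Real.exp (-(‖p.1 - p.2‖^2 * t))) := by
        refine setIntegral_congr_fun measurableSet_Ioi fun t ht => ?_
        have ht' : (0:ℝ) < t := ht
        rw [norm_mul, Real.norm_of_nonneg (mul_nonneg (Real.rpow_nonneg ht'.le _) (Real.exp_pos _).le)]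
      rw [h1, integral_const_mul, TF_coulomb_pd_sub _ (norm_pos_iff.mpr (sub_ne_zero.mpr hp)),
        norm_div, norm_norm]
      ring
  have hswap := integral_integral_swap (μ := (volume : Measure E3).prod (volume : Measure E3))
    (ν := (volume : Measure ℝ).restrict (Ioi 0)) (f := fun (p : E3 × E3) (t : ℝ) =>
      h p.1 * h p.2 * (t^((1/2:ℝ)-1) * Real.exp (-(‖p.1 - p.2‖^2 * t)))) hΨi
  have hL : √Real.pi * (∫ p : E3 × E3, h p.1 * h p.2 / ‖p.1 - p.2‖
        ∂((volume : Measure E3).prod (volume : Measure E3)))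
      = ∫ t in Ioi (0:ℝ), ∫ p : E3 × E3,
        h p.1 * h p.2 * (t^((1/2:ℝ)-1) * Real.exp (-(‖p.1 - p.2‖^2 * t)))
          ∂((volume : Measure E3).prod (volume : Measure E3)) := by
    rw [← hswap, ← integral_const_mul]
    refine integral_congr_ae ?_
    filter_upwards [TF_coulomb_pd_diag] with p hp
    exact (hin p hp).symm
  have hR : 0 ≤ ∫ t in Ioi (0:ℝ), ∫ p : E3 × E3,
        h p.1 * h p.2 * (t^((1/2:ℝ)-1) * Real.exp (-(‖p.1 - p.2‖^2 * t)))
          ∂((volume : Measure E3).prod (volume : Measure E3)) := by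
    refine setIntegral_nonneg measurableSet_Ioi fun t ht => ?_
    have ht' : (0:ℝ) < t := ht
    have h1 : (fun p : E3 × E3 =>
        h p.1 * h p.2 * (t^((1/2:ℝ)-1) * Real.exp (-(‖p.1 - p.2‖^2 * t))))
        = fun p => t^((1/2:ℝ)-1) * (h p.1 * h p.2 * Real.exp (-t * ‖p.1 - p.2‖^2)) := by
      funext p
      rw [show -(‖p.1 - p.2‖^2 * t) = -t * ‖p.1 - p.2‖^2 by ring]
      ring
    rw [h1, integral_const_mul]
    exact mul_nonneg (Real.rpow_nonneg ht'.le _) (TF_coulomb_pd_gauss h hm hi t ht')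
  rw [← hL] at hR
  exact nonneg_of_mul_nonneg_right hR (Real.sqrt_pos.mpr Real.pi_pos)

theorem pd {R : ℝ} (hR : 0 < R) {h : E3 → ℝ} (hh : Good R h) : 0 ≤ ∫ x, h x * V h x := by
  have h1 := coulomb_pd h hR hh
  have h2 : (fun x => ∫ y, h x * h y / ‖x - y‖) = fun x => h x * V h x := by
    funext x
    unfold V
    rw [← integral_const_mul]
    congr 1
    funext y
    rw [dist_eq_norm]
    ring
  rwa [h2] at h1

end Pool.Agent.W784.HS
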