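import Pool.Agent.W784.HS.A

set_option autoImplicit false
open MeasureTheory Set Filter Topology
open scoped ENNReal

/-! Existence of minimisers of the Coulomb energy under the constraint `0 ≤ τ ≤ 1_Q`. -/

namespace Pool.Agent.W784.HS

open Pool.Agent.H283R3.Newt

variable {R : ℝ} {Q : Set E3}

theorem V_lin (hR : 0 < R) {a b : E3 → ℝ} (ha : Good R a) (hb : Good R b) (c : ℝ) (x : E3) :
    V (fun y => a y + c * b y) x = V a x + c * V b x := by
  unfold V
  rw [← integral_const_mul, ← integral_add (ha.int_kern hR x) ((hb.int_kern hR x).const_mul c)]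
  congr 1
  funext y
  ring

theorem D_int (hR : 0 < R) {a b : E3 → ℝ} (ha : Good R a) (hb : Good R b) :
    Integrable (fun x => a x * V b x) := by
  refine ((ha.integrable hR).abs.mul_const (2 * Real.pi * R ^ 2)).mono'
    ((ha.meas.mul (hb.V_cont hR).measurable).aestronglyMeasurable) (Eventually.of_forall fun x => ?_)
  rw [norm_mul, Real.norm_eq_abs, Real.norm_eq_abs]
  exact mul_le_mul_of_nonneg_left ((hb.V_abs_le hR x).trans (Nn_le hR (norm_nonneg x))) (abs_nonneg _)

theorem D_symm (hR : 0 < R) {a b : E3 → ℝ} (ha : Good R a) (hb : Good R b) :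
    ∫ x, a x * V b x = ∫ x, b x * V a x := by
  have hm1 : Measurable (fun p : E3 × E3 => a p.1) := ha.meas.comp measurable_fst
  have hm2 : Measurable (fun p : E3 × E3 => b p.2) := hb.meas.comp measurable_snd
  have hm3 : Measurable (fun p : E3 × E3 => (dist p.1 p.2)⁻¹) := by fun_prop
  have hi : Integrable (fun p : E3 × E3 => a p.1 * (b p.2 * (dist p.1 p.2)⁻¹))
      ((volume : Measure E3).prod (volume : Measure E3)) := by
    have hmm : Measurable (fun p : E3 × E3 => a p.1 * (b p.2 * (dist p.1 p.2)⁻¹)) :=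
      hm1.mul (hm2.mul hm3)
    rw [integrable_prod_iff hmm.aestronglyMeasurable]
    constructor
    · filter_upwards with x
      exact (hb.int_kern hR x).const_mul (a x)
    · have hc : (fun x : E3 => ∫ y : E3, ‖a x * (b y * (dist x y)⁻¹)‖)
          = fun x => |a x| * V (fun y => |b y|) x := by
        funext x
        unfold V
        rw [← integral_const_mul]
        congr 1
        funext y
        rw [norm_mul, norm_mul, Real.norm_eq_abs, Real.norm_eq_abs,
          Real.norm_of_nonneg (inv_nonneg.2 dist_nonneg)]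
      have h1 := (D_int hR (good_abs ha) (good_abs hb))
      simp only
      rw [hc]
      exact h1
  have h2 := integral_integral_swap (f := fun x y => a x * (b y * (dist x y)⁻¹)) hi
  have e1 : ∫ x, a x * V b x = ∫ x, ∫ y, a x * (b y * (dist x y)⁻¹) := by
    congr 1
    funext x
    unfold V
    rw [integral_const_mul]
  have e2 : ∫ x, b x * V a x = ∫ y, ∫ x, a x * (b y * (dist x y)⁻¹) := by
    congr 1
    funext y
    unfold V
    rw [← integral_const_mul]
    congr 1
    funext x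
    rw [dist_comm y x]
    ring
  rw [e1, e2, h2]

theorem D_exp (hR : 0 < R) {a b : E3 → ℝ} (ha : Good R a) (hb : Good R b) (c : ℝ) :
    ∫ x, (a x + c * b x) * V (fun y => a y + c * b y) x
      = (∫ x, a x * V a x) + 2 * c * (∫ x, b x * V a x) + c ^ 2 * ∫ x, b x * V b x := by
  have e : (fun x => (a x + c * b x) * V (fun y => a y + c * b y) x)
      = fun x => (a x * V a x + c * (a x * V b x)) + (c * (b x * V a x) + c ^ 2 * (b x * V b x)) := by
    funext x
    rw [V_lin hR ha hb c x]; ring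
  rw [e]
  have i1 := D_int hR ha ha
  have i2 := (D_int hR ha hb).const_mul c
  have i3 := (D_int hR hb ha).const_mul c
  have i4 := (D_int hR hb hb).const_mul (c ^ 2)
  have i12 : Integrable (fun x => a x * V a x + c * (a x * V b x)) := i1.add i2
  have i34 : Integrable (fun x => c * (b x * V a x) + c ^ 2 * (b x * V b x)) := i3.add i4
  rw [integral_add i12 i34, integral_add i1 i2, integral_add i3 i4,
    integral_const_mul, integral_const_mul, integral_const_mul, D_symm hR ha hb]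
  ring

/-- admissible densities -/
def Ad (Q : Set E3) (τ : E3 → ℝ) : Prop := Measurable τ ∧ ∀ x, 0 ≤ τ x ∧ τ x ≤ Q.indicator 1 x

theorem ind_le_one (x : E3) : Q.indicator (1 : E3 → ℝ) x ≤ 1 := by
  unfold indicator
  split_ifs <;> simp

theorem ind_nonneg (x : E3) : 0 ≤ Q.indicator (1 : E3 → ℝ) x := by
  unfold indicator
  split_ifs <;> simp

theorem ind_mono (hQ : Q ⊆ Metric.ball 0 R) (x : E3) :
    Q.indicator (1 : E3 → ℝ) x ≤ (Metric.ball (0:E3) R).indicator 1 x :=
  indicator_le_indicator_of_subset hQ (fun _ => zero_le_one) x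

theorem Ad.good (hQ : Q ⊆ Metric.ball 0 R) {τ : E3 → ℝ} (h : Ad Q τ) : Good R τ :=
  ⟨h.1, fun y => by rw [abs_of_nonneg (h.2 y).1]; exact (h.2 y).2.trans (ind_mono hQ y)⟩

theorem Ad.good_sub (hQ : Q ⊆ Metric.ball 0 R) {τ σ : E3 → ℝ} (h : Ad Q τ) (h' : Ad Q σ) :
    Good R (fun x => σ x - τ x) :=
  ⟨h'.1.sub h.1, fun y => by
    refine le_trans ?_ (ind_mono hQ y)
    have h1 := h.2 y
    have h2 := h'.2 y
    rw [abs_le]
    constructor <;> linarith⟩

theorem Ad.comb {τ σ : E3 → ℝ} (hτ : Ad Q τ) (hσ : Ad Q σ) {t : ℝ} (ht0 : 0 ≤ t) (ht1 : t ≤ 1) :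
    Ad Q (fun x => τ x + t * (σ x - τ x)) := by
  refine ⟨hτ.1.add (measurable_const.mul (hσ.1.sub hτ.1)), fun x => ?_⟩
  have h1 := hτ.2 x
  have h2 := hσ.2 x
  constructor
  · nlinarith
  · nlinarith

/-- the functional -/
noncomputable def J (c : ℝ) (τ : E3 → ℝ) : ℝ := (1/2) * (∫ x, τ x * V τ x) - c * ∫ x, τ x

theorem J_exp (hR : 0 < R) (hQ : Q ⊆ Metric.ball 0 R) (c : ℝ) {τ σ : E3 → ℝ} (hτ : Ad Q τ)
    (hσ : Ad Q σ) (t : ℝ) :
    J c (fun x => τ x + t * (σ x - τ x)) = J c τ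
      + t * ((∫ x, (σ x - τ x) * V τ x) - c * ∫ x, (σ x - τ x))
      + t ^ 2 / 2 * ∫ x, (σ x - τ x) * V (fun x => σ x - τ x) x := by
  have gτ := hτ.good hQ
  have gd := hτ.good_sub hQ hσ
  unfold J
  rw [D_exp hR gτ gd t, integral_add (gτ.integrable hR) ((gd.integrable hR).const_mul t),
    integral_const_mul]
  ring

theorem Ad.int_sq (hR : 0 < R) (hQ : Q ⊆ Metric.ball 0 R) {τ σ : E3 → ℝ} (hτ : Ad Q τ)
    (hσ : Ad Q σ) : Integrable (fun x => τ x * σ x) := by
  have gτ := hτ.good hQ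
  have gσ := hσ.good hQ
  refine (gτ.integrable hR).abs.mono' (hτ.1.mul hσ.1).aestronglyMeasurable
    (Eventually.of_forall fun x => ?_)
  rw [norm_mul, Real.norm_eq_abs, Real.norm_eq_abs]
  have := gσ.abs_le_one x
  nlinarith [abs_nonneg (τ x), abs_nonneg (σ x)]

/-- existence of minimisers -/
theorem exists_min (hR : 0 < R) (hQ : Q ⊆ Metric.ball 0 R) (hQm : MeasurableSet Q) (c : ℝ)
    (hc : 0 ≤ c) :
    ∃ τ, Ad Q τ ∧ ∀ σ, Ad Q σ → J c τ ≤ J c σ := by
  classical
  have hball : Integrable ((Metric.ball (0:E3) R).indicator (1 : E3 → ℝ)) :=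
    (integrable_indicator_iff Metric.isOpen_ball.measurableSet).2
      (integrableOn_const (measure_ball_lt_top.ne) )
  set M : ℝ := ∫ x, (Metric.ball (0:E3) R).indicator (1 : E3 → ℝ) x with hM
  have hint_le : ∀ τ, Ad Q τ → ∫ x, τ x ≤ M := fun τ hτ =>
    integral_mono ((hτ.good hQ).integrable hR) hball
      (fun x => (hτ.2 x).2.trans (ind_mono hQ x))
  have hsq_le : ∀ τ, Ad Q τ → ∫ x, τ x * τ x ≤ M := fun τ hτ =>
    integral_mono (hτ.int_sq hR hQ hτ) hball (fun x => by
      have h1 := hτ.2 x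
      have h2 := ind_le_one (Q := Q) x
      have h3 := ind_mono hQ x
      nlinarith)
  have hsq_nn : ∀ τ : E3 → ℝ, 0 ≤ ∫ x, τ x * τ x := fun τ =>
    integral_nonneg fun x => mul_self_nonneg _
  have hlow : ∀ τ, Ad Q τ → -(c * M) ≤ J c τ := by
    intro τ hτ
    unfold J
    have h1 := pd hR (hτ.good hQ)
    have h2 := mul_le_mul_of_nonneg_left (hint_le τ hτ) hc
    linarith
  have hz : Ad Q (fun _ => 0) := ⟨measurable_const, fun x => ⟨le_rfl, ind_nonneg x⟩⟩
  set S : Set ℝ := {v | ∃ τ, Ad Q τ ∧ J c τ = v} with hS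
  have hSne : S.Nonempty := ⟨_, fun _ => 0, hz, rfl⟩
  have hSb : BddBelow S := ⟨-(c * M), by rintro v ⟨τ, hτ, rfl⟩; exact hlow τ hτ⟩
  set m := sInf S with hm
  have hle : ∀ σ, Ad Q σ → m ≤ J c σ := fun σ hσ => csInf_le hSb ⟨σ, hσ, rfl⟩
  -- the sets of almost minimisers
  set P : ℝ → Set ℝ := fun ε => {v | ∃ τ, Ad Q τ ∧ J c τ ≤ m + ε ∧ ∫ x, τ x * τ x = v} with hP
  have hPne : ∀ ε, 0 < ε → (P ε).Nonempty := by
    intro ε hε
    obtain ⟨v, ⟨τ, hτ, rfl⟩, hv⟩ := exists_lt_of_csInf_lt hSne (show sInf S < m + ε by linarith)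
    exact ⟨_, τ, hτ, hv.le, rfl⟩
  have hPb : ∀ ε, BddBelow (P ε) := fun ε => ⟨0, by rintro v ⟨τ, _, _, rfl⟩; exact hsq_nn τ⟩
  set D : ℝ → ℝ := fun ε => sInf (P ε) with hD
  have hDle : ∀ ε τ, Ad Q τ → J c τ ≤ m + ε → D ε ≤ ∫ x, τ x * τ x := fun ε τ h1 h2 =>
    csInf_le (hPb ε) ⟨τ, h1, h2, rfl⟩
  have hDM : ∀ ε, 0 < ε → D ε ≤ M := by
    intro ε hε
    obtain ⟨v, τ, h1, h2, rfl⟩ := hPne ε hε
    exact (hDle ε τ h1 h2).trans (hsq_le τ h1)
  have hDanti : ∀ ε ε', 0 < ε → ε ≤ ε' → D ε' ≤ D ε := by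
    intro ε ε' hε hεε
    refine le_csInf (hPne ε hε) ?_
    rintro v ⟨τ, h1, h2, rfl⟩
    exact hDle ε' τ h1 (by linarith)
  set T : Set ℝ := {v | ∃ ε, 0 < ε ∧ D ε = v} with hT
  have hTne : T.Nonempty := ⟨_, 1, one_pos, rfl⟩
  have hTb : BddAbove T := ⟨M, by rintro v ⟨ε, hε, rfl⟩; exact hDM ε hε⟩
  set d := sSup T with hd
  have hDd : ∀ ε, 0 < ε → D ε ≤ d := fun ε hε => le_csSup hTb ⟨ε, hε, rfl⟩
  have heps : ∀ N : ℕ, ∃ ε : ℝ, 0 < ε ∧ ε ≤ (1/4:ℝ) ^ N ∧ d - (1/4:ℝ) ^ N / 100 ≤ D ε := by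
    intro N
    have hpos : 0 < (1/4:ℝ) ^ N := by positivity
    obtain ⟨v, ⟨ε, hε, rfl⟩, hv⟩ := exists_lt_of_lt_csSup hTne
      (show d - (1/4:ℝ) ^ N / 100 < sSup T by rw [← hd]; linarith)
    refine ⟨min ε ((1/4:ℝ) ^ N), lt_min hε hpos, min_le_right _ _, hv.le.trans ?_⟩
    exact hDanti _ _ (lt_min hε hpos) (min_le_left _ _)
  choose ε hε0 hε1 hε2 using heps
  have hseq : ∀ N : ℕ, ∃ τ, Ad Q τ ∧ J c τ ≤ m + ε N ∧
      ∫ x, τ x * τ x ≤ d + (1/4:ℝ) ^ N / 100 := by
    intro N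
    have hpos : 0 < (1/4:ℝ) ^ N := by positivity
    obtain ⟨v, ⟨τ, h1, h2, rfl⟩, hv⟩ := exists_lt_of_csInf_lt (hPne (ε N) (hε0 N))
      (show sInf (P (ε N)) < D (ε N) + (1/4:ℝ) ^ N / 100 by
        have : sInf (P (ε N)) = D (ε N) := rfl
        linarith)
    exact ⟨τ, h1, h2, by linarith [hDd (ε N) (hε0 N)]⟩
  choose τ hτ hJ hN using hseq
  have hmid : ∀ a b : E3 → ℝ, Ad Q a → Ad Q b →
      J c (fun x => a x + (1/2) * (b x - a x)) ≤ (1/2) * J c a + (1/2) * J c b := by
    intro a b ha hb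
    have h1 := J_exp hR hQ c ha hb (1/2)
    have h2 := J_exp hR hQ c ha hb 1
    have h3 := pd hR (ha.good_sub hQ hb)
    have h4 : (fun x => a x + 1 * (b x - a x)) = b := by funext x; ring
    rw [h4] at h2
    rw [h1]
    linarith
  have hmidsq : ∀ a b : E3 → ℝ, Ad Q a → Ad Q b →
      ∫ x, (a x + (1/2) * (b x - a x)) * (a x + (1/2) * (b x - a x))
        = (1/2) * (∫ x, a x * a x) + (1/2) * (∫ x, b x * b x) - (1/4) * ∫ x, (a x - b x) ^ 2 := by
    intro a b ha hb
    have i1 := ha.int_sq hR hQ ha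
    have i2 := hb.int_sq hR hQ hb
    have i3 := ha.int_sq hR hQ hb
    have i4 : Integrable (fun x => (a x - b x) ^ 2) := by
      refine ((i1.add i2).sub (i3.const_mul 2)).congr (Eventually.of_forall fun x => ?_)
      simp only [Pi.add_apply, Pi.sub_apply]
      ring
    have i5 : Integrable (fun x => (1/2) * (a x * a x) + (1/2) * (b x * b x)) :=
      (i1.const_mul _).add (i2.const_mul _)
    rw [← integral_const_mul, ← integral_const_mul, ← integral_const_mul,
      ← integral_add (i1.const_mul _) (i2.const_mul _),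
      ← integral_sub i5 (i4.const_mul _)]
    congr 1
    funext x
    ring
  have hgap : ∀ N n k : ℕ, N ≤ n → N ≤ k → ∫ x, (τ n x - τ k x) ^ 2 ≤ (1/4:ℝ) ^ N / 4 := by
    intro N n k hn hk
    have h5 : (1/4:ℝ) ^ n ≤ (1/4:ℝ) ^ N := pow_le_pow_of_le_one (by norm_num) (by norm_num) hn
    have h6 : (1/4:ℝ) ^ k ≤ (1/4:ℝ) ^ N := pow_le_pow_of_le_one (by norm_num) (by norm_num) hk
    have hpos : 0 < (1/4:ℝ) ^ N := by positivity
    have hAd := (hτ n).comb (hτ k) (t := 1/2) (by norm_num) (by norm_num)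
    have h1 := hmid _ _ (hτ n) (hτ k)
    have h2 := hmidsq _ _ (hτ n) (hτ k)
    have h3 := hN n
    have h4 := hN k
    have hJn := hJ n
    have hJk := hJ k
    have key : d - (1/4:ℝ) ^ N / 100 ≤ ∫ x, (τ n x + (1/2) * (τ k x - τ n x)) * (τ n x + (1/2) * (τ k x - τ n x)) := by
      rcases le_total (ε n) (ε k) with h | h
      · have := hDle (ε k) _ hAd (by linarith)
        linarith [hε2 k]
      · have := hDle (ε n) _ hAd (by linarith)
        linarith [hε2 n]
    linarith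
  have hfm : ∀ n, Measurable (τ n) := fun n => (hτ n).1
  have hmem : ∀ n k, MemLp (τ n - τ k) 2 volume := by
    intro n k
    rw [memLp_two_iff_integrable_sq ((hfm n).sub (hfm k)).aestronglyMeasurable]
    have i1 := (hτ n).int_sq hR hQ (hτ n)
    have i2 := (hτ k).int_sq hR hQ (hτ k)
    have i3 := (hτ n).int_sq hR hQ (hτ k)
    refine ((i1.add i2).sub (i3.const_mul 2)).congr (Eventually.of_forall fun x => ?_)
    simp only [Pi.add_apply, Pi.sub_apply]
    ring
  have hcau : ∀ N n k : ℕ, N ≤ n → N ≤ k → eLpNorm (τ n - τ k) 2 volume < ENNReal.ofReal ((1/2:ℝ) ^ N) := by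
    intro N n k hn hk
    rw [(hmem n k).eLpNorm_eq_integral_rpow_norm (by norm_num) (by norm_num)]
    refine (ENNReal.ofReal_lt_ofReal_iff (by positivity)).2 ?_
    have e1 : ∫ x, ‖(τ n - τ k) x‖ ^ (2 : ℝ≥0∞).toReal = ∫ x, (τ n x - τ k x) ^ 2 := by
      congr 1
      funext x
      simp
    rw [e1]
    have h1 := hgap N n k hn hk
    have h0 : 0 ≤ ∫ x, (τ n x - τ k x) ^ 2 := integral_nonneg (fun x => sq_nonneg _)
    have h2 : (1/4:ℝ) ^ N / 4 < ((1/2:ℝ) ^ N) ^ 2 := by
      have : ((1/2:ℝ) ^ N) ^ 2 = (1/4:ℝ) ^ N := by rw [← pow_mul, mul_comm, pow_mul]; norm_num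
      rw [this]
      have : 0 < (1/4:ℝ) ^ N := by positivity
      linarith
    have h3 : (∫ x, (τ n x - τ k x) ^ 2) ^ ((2 : ℝ≥0∞).toReal)⁻¹
        = √(∫ x, (τ n x - τ k x) ^ 2) := by
      rw [Real.sqrt_eq_rpow]; norm_num
    rw [h3, Real.sqrt_lt' (by positivity)]
    exact h1.trans_lt h2
  have hB : ∑' i : ℕ, ENNReal.ofReal ((1/2:ℝ) ^ i) ≠ ∞ := by
    rw [← ENNReal.ofReal_tsum_of_nonneg (fun i => by positivity) summable_geometric_two]
    exact ENNReal.ofReal_ne_top
  have hae := Lp.ae_tendsto_of_cauchy_eLpNorm (fun n => (hfm n).aestronglyMeasurable) (by norm_num : (1:ℝ≥0∞) ≤ 2) hB hcau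
  obtain ⟨τl, hτlm, hτl⟩ := measurable_limit_of_tendsto_metrizable_ae (fun n => (hτ n).1.aemeasurable) hae
  set τ' : E3 → ℝ := fun x => min (max (τl x) 0) (Q.indicator 1 x) with hτ'
  have hindm : Measurable (Q.indicator (1 : E3 → ℝ)) := measurable_one.indicator hQm
  have hAd : Ad Q τ' := by
    refine ⟨(hτlm.max measurable_const).min hindm, fun x => ⟨?_, min_le_right _ _⟩⟩
    exact le_min (le_max_right _ _) (ind_nonneg x)
  have hτ'l : ∀ᵐ x : E3, Tendsto (fun n => τ n x) atTop (𝓝 (τ' x)) := by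
    filter_upwards [hτl] with x hx
    have h1 : 0 ≤ τl x := ge_of_tendsto' hx (fun n => ((hτ n).2 x).1)
    have h2 : τl x ≤ Q.indicator 1 x := le_of_tendsto' hx (fun n => ((hτ n).2 x).2)
    have : τ' x = τl x := by rw [hτ']; simp only; rw [max_eq_left h1, min_eq_left h2]
    rw [this]; exact hx
  have hVl : ∀ x, Tendsto (fun n => V (τ n) x) atTop (𝓝 (V τ' x)) := by
    intro x
    unfold V
    have hgb : Good R ((Metric.ball (0:E3) R).indicator 1) :=
      ⟨measurable_one.indicator Metric.isOpen_ball.measurableSet, fun y => by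
        rw [abs_of_nonneg (ind_nonneg y)]⟩
    refine tendsto_integral_of_dominated_convergence
      (fun y => (Metric.ball (0:E3) R).indicator (1 : E3 → ℝ) y * (dist x y)⁻¹) ?_ (hgb.int_kern hR x) ?_ ?_
    · intro n
      have := (hτ n).1
      fun_prop
    · intro n
      refine Eventually.of_forall fun y => ?_
      rw [norm_mul, Real.norm_eq_abs, Real.norm_of_nonneg (inv_nonneg.2 dist_nonneg)]
      exact mul_le_mul_of_nonneg_right (((hτ n).good hQ).bd y) (inv_nonneg.2 dist_nonneg)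
    · filter_upwards [hτ'l] with y hy
      exact hy.mul_const _
  have hlim : Tendsto (fun n => J c (τ n)) atTop (𝓝 (J c τ')) := by
    unfold J
    refine (Tendsto.const_mul _ ?_).sub (Tendsto.const_mul _ ?_)
    · refine tendsto_integral_of_dominated_convergence
        (fun x => (Metric.ball (0:E3) R).indicator (1 : E3 → ℝ) x * (2 * Real.pi * R ^ 2))
        (fun n => (((hτ n).1.mul (((hτ n).good hQ).V_cont hR).measurable)).aestronglyMeasurable)
        (hball.mul_const _) ?_ ?_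
      · intro n
        refine Eventually.of_forall fun x => ?_
        rw [norm_mul, Real.norm_eq_abs, Real.norm_eq_abs]
        refine mul_le_mul (((hτ n).good hQ).bd x) ?_ (abs_nonneg _) (ind_nonneg x)
        exact (((hτ n).good hQ).V_abs_le hR x).trans (Nn_le hR (norm_nonneg x))
      · filter_upwards [hτ'l] with x hx
        exact hx.mul (hVl x)
    · refine tendsto_integral_of_dominated_convergence
        (fun x => (Metric.ball (0:E3) R).indicator (1 : E3 → ℝ) x)
        (fun n => (hτ n).1.aestronglyMeasurable) hball ?_ hτ'l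
      intro n
      refine Eventually.of_forall fun x => ?_
      exact ((hτ n).good hQ).bd x
  have hlim2 : Tendsto (fun n : ℕ => m + (1/4:ℝ) ^ n) atTop (𝓝 m) := by
    have h1 := (tendsto_pow_atTop_nhds_zero_of_lt_one (by norm_num : (0:ℝ) ≤ 1/4) (by norm_num))
    have h2 := h1.const_add m
    simpa using h2
  refine ⟨τ', hAd, fun σ hσ => ?_⟩
  exact (le_of_tendsto_of_tendsto' hlim hlim2 (fun n => (hJ n).trans (by linarith [hε1 n]))).trans
    (hle σ hσ)

/-- variational inequality -/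
theorem vi (hR : 0 < R) (hQ : Q ⊆ Metric.ball 0 R) {c : ℝ} {τ : E3 → ℝ} (hτ : Ad Q τ)
    (hmin : ∀ σ, Ad Q σ → J c τ ≤ J c σ) {σ : E3 → ℝ} (hσ : Ad Q σ) :
    0 ≤ ∫ x, (σ x - τ x) * (V τ x - c) := by
  have gd := hτ.good_sub hQ hσ
  have gτ := hτ.good hQ
  set A : ℝ := (∫ x, (σ x - τ x) * V τ x) - c * ∫ x, (σ x - τ x) with hA
  set E : ℝ := ∫ x, (σ x - τ x) * V (fun x => σ x - τ x) x with hE
  have hstep : ∀ n : ℕ, 0 ≤ A + (1/((n:ℝ)+1)) * (E / 2) := by
    intro n
    set t : ℝ := 1/((n:ℝ)+1) with ht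
    have ht0 : 0 < t := by positivity
    have ht1 : t ≤ 1 := by
      rw [ht, div_le_one (by positivity)]
      have : (0:ℝ) ≤ n := Nat.cast_nonneg n
      linarith
    have h1 := hmin _ (hτ.comb hσ ht0.le ht1)
    rw [J_exp hR hQ c hτ hσ t] at h1
    have h2 : 0 ≤ t * (A + t * (E / 2)) := by
      have : t * (A + t * (E / 2)) = t * A + t ^ 2 / 2 * E := by ring
      rw [this]; linarith
    exact nonneg_of_mul_nonneg_right h2 ht0
  have ht : Tendsto (fun n : ℕ => A + (1/((n:ℝ)+1)) * (E / 2)) atTop (𝓝 (A + 0 * (E / 2))) :=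
    (tendsto_one_div_add_atTop_nhds_zero_nat.mul_const _).const_add _
  have h0 := ge_of_tendsto' ht hstep
  rw [zero_mul, add_zero] at h0
  have h3 : ∫ x, (σ x - τ x) * (V τ x - c) = A := by
    rw [hA, ← integral_const_mul, ← integral_sub (D_int hR gd gτ) ((gd.integrable hR).const_mul c)]
    congr 1
    funext x
    ring
  rw [h3]; exact h0

/-- Euler-Lagrange equations -/
theorem exists_EL (hR : 0 < R) (hQ : Q ⊆ Metric.ball 0 R) (hQm : MeasurableSet Q) (c : ℝ)
    (hc : 0 ≤ c) :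
    ∃ τ, Ad Q τ ∧ (∀ᵐ x : E3, V τ x < c → τ x = Q.indicator 1 x) ∧
      (∀ᵐ x : E3, c < V τ x → τ x = 0) := by
  classical
  obtain ⟨τ, hτ, hmin⟩ := exists_min hR hQ hQm c hc
  have gτ := hτ.good hQ
  have hVm : Measurable (V τ) := (gτ.V_cont hR).measurable
  have hindm : Measurable (Q.indicator (1 : E3 → ℝ)) := measurable_one.indicator hQm
  set σ : E3 → ℝ := fun x => if V τ x < c then Q.indicator 1 x else if c < V τ x then 0 else τ x with hσ
  have hσA : Ad Q σ := by
    refine ⟨?_, fun x => ?_⟩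
    · exact Measurable.ite (measurableSet_lt hVm measurable_const) hindm
        (Measurable.ite (measurableSet_lt measurable_const hVm) measurable_const hτ.1)
    · rw [hσ]
      simp only
      split_ifs
      · exact ⟨ind_nonneg x, le_rfl⟩
      · exact ⟨le_rfl, ind_nonneg x⟩
      · exact hτ.2 x
  have h1 := vi hR hQ hτ hmin hσA
  have gd := hτ.good_sub hQ hσA
  have hnp : ∀ x, (σ x - τ x) * (V τ x - c) ≤ 0 := by
    intro x
    have := hτ.2 x
    rw [hσ]
    simp only
    split_ifs with h2 h3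
    · exact mul_nonpos_of_nonneg_of_nonpos (by linarith) (by linarith)
    · exact mul_nonpos_of_nonpos_of_nonneg (by linarith) (by linarith)
    · simp
  have hi : Integrable (fun x => (σ x - τ x) * (V τ x - c)) := by
    refine ((D_int hR gd gτ).sub ((gd.integrable hR).const_mul c)).congr
      (Eventually.of_forall fun x => ?_)
    simp only [Pi.sub_apply]
    ring
  have h0 : ∫ x, -((σ x - τ x) * (V τ x - c)) = 0 := by
    apply le_antisymm
    · rw [integral_neg]; linarith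
    · exact integral_nonneg fun x => by simpa using hnp x
  have hz := (integral_eq_zero_iff_of_nonneg (fun x => by simpa using hnp x) hi.neg).1 h0
  refine ⟨τ, hτ, ?_, ?_⟩
  · filter_upwards [hz] with x hx hlt
    have hx' : -((σ x - τ x) * (V τ x - c)) = 0 := hx
    have hs : σ x = Q.indicator 1 x := by rw [hσ]; simp only; rw [if_pos hlt]
    rw [hs] at hx'
    have : V τ x - c ≠ 0 := by
      intro h; linarith
    have h5 : (Q.indicator 1 x - τ x) * (V τ x - c) = 0 := by linarith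
    rcases mul_eq_zero.1 h5 with h | h
    · linarith
    · exact absurd h this
  · filter_upwards [hz] with x hx hlt
    have hx' : -((σ x - τ x) * (V τ x - c)) = 0 := hx
    have hs : σ x = 0 := by rw [hσ]; simp only; rw [if_neg (not_lt.2 hlt.le), if_pos hlt]
    rw [hs] at hx'
    have : V τ x - c ≠ 0 := by
      intro h; linarith
    have h5 : (0 - τ x) * (V τ x - c) = 0 := by linarith
    rcases mul_eq_zero.1 h5 with h | h
    · linarith
    · exact absurd h this

end Pool.Agent.W784.HS
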