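import Pool.Agent.W784.HS.B

set_option autoImplicit false
open MeasureTheory Set Filter Topology
open scoped ENNReal

/-! Maximum principle and moving planes. -/

namespace Pool.Agent.W784.HS

open Pool.Agent.H283R3.Newt

variable {R : ℝ} {Q : Set E3}

theorem e0_ne : (EuclideanSpace.single (0 : Fin 3) (1:ℝ) : E3) 0 = 1 := by simp

/-- sub-mean-value principle -/
theorem smp {w : E3 → ℝ} (hw : Continuous w) {a : ℝ} {H : Set E3} (hH : IsOpen H)
    (hcomp : ∀ a', a < a' → IsCompact {x | x ∈ H ∧ a' ≤ w x})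
    (hmean : ∀ x ∈ H, a < w x → ∃ r0 > 0, ∀ r, 0 < r → r < r0 →
      w x ≤ (∫ z in Metric.ball x r, w z) / vb r) :
    ∀ x ∈ H, w x ≤ a := by
  intro x1 hx1
  by_contra hc
  push Not at hc
  obtain ⟨x0, hx0, hmax⟩ := (hcomp _ hc).exists_isMaxOn ⟨x1, hx1, le_rfl⟩ hw.continuousOn
  set M := w x0 with hM
  have hM1 : w x1 ≤ M := hx0.2
  have hall : ∀ x ∈ H, w x ≤ M := by
    intro x hx
    rcases le_total (w x1) (w x) with h | h
    · exact hmax ⟨hx, h⟩
    · exact h.trans hM1
  have haM : a < M := hc.trans_le hM1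
  have hcont : Continuous (fun x : E3 => x 0) := by fun_prop
  obtain ⟨xs, hxs, hxmax⟩ := (hcomp _ haM).exists_isMaxOn ⟨x0, hx0.1, le_rfl⟩ hcont.continuousOn
  have hxsM : w xs = M := le_antisymm (hall _ hxs.1) hxs.2
  obtain ⟨r0, hr0, hm⟩ := hmean xs hxs.1 (by rw [hxsM]; exact haM)
  obtain ⟨r1, hr1, hball⟩ := Metric.isOpen_iff.1 hH xs hxs.1
  obtain ⟨r, hr, hrr⟩ : ∃ r, 0 < r ∧ r < min r0 r1 := exists_between (lt_min hr0 hr1)
  have hr2 : Metric.ball xs r ⊆ H :=
    (Metric.ball_subset_ball (hrr.le.trans (min_le_right _ _))).trans hball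
  have hmr := hm r hr (hrr.trans_le (min_le_left _ _))
  rw [hxsM, le_div_iff₀ (vb_pos hr)] at hmr
  have hint : IntegrableOn w (Metric.ball xs r) :=
    (hw.locallyIntegrable.integrableOn_isCompact (isCompact_closedBall xs r)).mono_set
      Metric.ball_subset_closedBall
  have hvol : volume.real (Metric.ball xs r) = vb r := by
    rw [measureReal_def, vol_ball hr, ENNReal.toReal_ofReal (vb_pos hr).le]
  have hconst : ∫ z in Metric.ball xs r, M = M * vb r := by
    rw [setIntegral_const, hvol, smul_eq_mul, mul_comm]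
  have hint2 : IntegrableOn (fun _ => M) (Metric.ball xs r) :=
    integrableOn_const measure_ball_lt_top.ne
  have h0 : ∫ z in Metric.ball xs r, (M - w z) = 0 := by
    apply le_antisymm
    · rw [integral_sub hint2 hint, hconst]; linarith
    · exact setIntegral_nonneg Metric.isOpen_ball.measurableSet
        (fun z hz => sub_nonneg.2 (hall z (hr2 hz)))
  have hz := (setIntegral_eq_zero_iff_of_nonneg_ae
    ((ae_restrict_mem Metric.isOpen_ball.measurableSet).mono
      (fun z hz => sub_nonneg.2 (hall z (hr2 hz)))) (hint2.sub hint)).1 h0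
  have heq : EqOn (fun z => M - w z) (fun _ => 0) (Metric.ball xs r) :=
    Measure.eqOn_open_of_ae_eq hz Metric.isOpen_ball (by fun_prop) (by fun_prop)
  -- a point further to the right
  set y : E3 := xs + (r/2) • (EuclideanSpace.single (0 : Fin 3) (1:ℝ) : E3) with hy
  have hyb : y ∈ Metric.ball xs r := by
    rw [Metric.mem_ball, hy, dist_eq_norm, add_sub_cancel_left, norm_smul]
    simp
    rw [abs_of_pos hr]
    linarith
  have hyM : w y = M := by
    have := heq hyb
    simp only at this
    linarith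
  have h1 := hxmax (show y ∈ {x | x ∈ H ∧ M ≤ w x} from ⟨hr2 hyb, hyM.ge⟩)
  simp only [mem_ofPred_eq] at h1
  rw [hy] at h1
  simp at h1
  linarith

theorem Good.mono {R R' : ℝ} (h : R ≤ R') {τ : E3 → ℝ} (hτ : Good R τ) : Good R' τ :=
  ⟨hτ.meas, fun y => (hτ.bd y).trans
    (indicator_le_indicator_of_subset (Metric.ball_subset_ball h) (fun _ => zero_le_one) y)⟩

theorem kr_int (hR : 0 < R) {τ : E3 → ℝ} (h : Good R τ) {r : ℝ} (hr : 0 < r) (x : E3) :
    Integrable (fun y => τ y * kr r (dist x y)) := by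
  unfold kr
  have hm : Measurable fun y : E3 => Nn r (dist x y) := by
    unfold Nn
    apply Measurable.ite (measurableSet_lt (by fun_prop) (by fun_prop)) <;> fun_prop
  have h2 : Integrable (fun y => τ y * (Nn r (dist x y) / vb r)) := by
    refine ((h.integrable hR).abs.mul_const (2 * Real.pi * r ^ 2 / vb r)).mono'
      (h.meas.mul (hm.div_const _)).aestronglyMeasurable (ae_of_all _ fun y => ?_)
    have := vb_pos hr
    rw [Real.norm_eq_abs, abs_mul, abs_of_nonneg (div_nonneg (Nn_nonneg hr dist_nonneg) this.le)]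
    gcongr
    exact Nn_le hr dist_nonneg
  refine ((h.int_kern hR x).sub h2).congr (Eventually.of_forall fun y => ?_)
  simp only [Pi.sub_apply]
  ring

/-- if the density is non-positive almost everywhere near `x`, the sub-mean inequality holds -/
theorem submean (hR : 0 < R) {τ : E3 → ℝ} (h : Good R τ) {x : E3} {r0 : ℝ}
    (hneg : ∀ᵐ y : E3, y ∈ Metric.ball x r0 → τ y ≤ 0) {r : ℝ} (hr : 0 < r) (hr0 : r < r0) :
    V τ x ≤ (∫ z in Metric.ball x r, V τ z) / vb r := by
  have h1 := h.mean_diff hR hr x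
  have h2 : ∫ y, τ y * kr r (dist x y) ≤ 0 := by
    apply integral_nonpos_of_ae
    have hne : ∀ᵐ y : E3, y ≠ x := by simp [ae_iff]
    filter_upwards [hneg, hne] with y hy hyx
    have hd : 0 < dist x y := dist_pos.2 hyx.symm
    by_cases hb : dist x y < r
    · exact mul_nonpos_of_nonpos_of_nonneg (hy (by rw [Metric.mem_ball, dist_comm]; linarith))
        (kr_nonneg hr hd)
    · rw [kr_zero hr (not_lt.1 hb)]; simp
  linarith

theorem V_nonneg {τ : E3 → ℝ} (h : ∀ x, 0 ≤ τ x) (x : E3) : 0 ≤ V τ x :=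
  integral_nonneg fun y => mul_nonneg (h y) (inv_nonneg.2 dist_nonneg)

/-- maximum principle -/
theorem V_le (hR : 0 < R) {c : ℝ} (hc : 0 ≤ c) {τ : E3 → ℝ} (h : Good R τ)
    (hz : ∀ᵐ x : E3, c < V τ x → τ x = 0) (x : E3) : V τ x ≤ c := by
  refine smp (h.V_cont hR) (a := c) isOpen_univ ?_ ?_ x (mem_univ x)
  · intro a' ha'
    have := h.compact_ge hR (hc.trans_lt ha')
    simpa using this
  · intro x _ hx
    have hopen : IsOpen {x | c < V τ x} := isOpen_lt continuous_const (h.V_cont hR)
    obtain ⟨r0, hr0, hb⟩ := Metric.isOpen_iff.1 hopen x hx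
    refine ⟨r0, hr0, fun r hr hrr => submean hR h (r0 := r0) ?_ hr hrr⟩
    filter_upwards [hz] with y hy hyb
    exact (hy (hb hyb)).le

/-- the reflection in the plane `⟪e, x⟫ = l` -/
noncomputable def sg (e : E3) (l : ℝ) (x : E3) : E3 := x - (2 * (inner ℝ e x - l)) • e

theorem sg_inner {e : E3} (he : ‖e‖ = 1) (l : ℝ) (x : E3) :
    inner ℝ e (sg e l x) = 2 * l - inner ℝ e x := by
  unfold sg
  rw [inner_sub_right, inner_smul_right, real_inner_self_eq_norm_sq, he]
  ring

theorem sg_sg {e : E3} (he : ‖e‖ = 1) (l : ℝ) (x : E3) : sg e l (sg e l x) = x := by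
  have h := sg_inner he l x
  rw [sg, h]
  unfold sg
  module

theorem dist_sg {e : E3} (he : ‖e‖ = 1) (l : ℝ) (x y : E3) :
    dist (sg e l x) (sg e l y) = dist x y := by
  rw [dist_eq_norm, dist_eq_norm]
  have h1 : sg e l x - sg e l y = (x - y) - (2 * inner ℝ e (x - y)) • e := by
    unfold sg
    rw [inner_sub_right]
    module
  rw [h1]
  have h2 : ‖(x - y) - (2 * inner ℝ e (x - y)) • e‖ ^ 2 = ‖x - y‖ ^ 2 := by
    rw [norm_sub_sq_real, norm_smul, he, inner_smul_right, real_inner_comm]
    rw [Real.norm_eq_abs, mul_one, sq_abs]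
    ring
  have h3 := congrArg Real.sqrt h2
  rwa [Real.sqrt_sq (norm_nonneg _), Real.sqrt_sq (norm_nonneg _)] at h3

theorem sg_cont (e : E3) (l : ℝ) : Continuous (sg e l) := by
  unfold sg
  fun_prop

theorem sg_mp {e : E3} (he : ‖e‖ = 1) (l : ℝ) : MeasurePreserving (sg e l) volume volume := by
  have h1 : sg e l = (fun x => x + (2 * l) • e) ∘ ((Submodule.span ℝ {e})ᗮ.reflection : E3 → E3) := by
    funext x
    simp only [Function.comp]
    rw [Submodule.reflection_orthogonal_apply, Submodule.reflection_singleton_apply, he]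
    unfold sg
    simp
    module
  rw [h1]
  exact (measurePreserving_add_right volume _).comp
    (LinearIsometryEquiv.measurePreserving _)

/-- the reflection as a measurable equivalence -/
noncomputable def sgE {e : E3} (he : ‖e‖ = 1) (l : ℝ) : E3 ≃ᵐ E3 where
  toFun := sg e l
  invFun := sg e l
  left_inv := sg_sg he l
  right_inv := sg_sg he l
  measurable_toFun := (sg_cont e l).measurable
  measurable_invFun := (sg_cont e l).measurable

theorem V_sg {e : E3} (he : ‖e‖ = 1) (l : ℝ) (τ : E3 → ℝ) (x : E3) :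
    V τ (sg e l x) = V (fun y => τ (sg e l y)) x := by
  unfold V
  have h : MeasurePreserving (sgE he l) volume volume := sg_mp he l
  have h2 := h.integral_comp' (fun y => τ y * (dist (sg e l x) y)⁻¹)
  rw [← h2]
  congr 1
  funext y
  show τ (sg e l y) * (dist (sg e l x) (sg e l y))⁻¹ = _
  rw [dist_sg he]

theorem good_sg {e : E3} (he : ‖e‖ = 1) (l : ℝ) {τ : E3 → ℝ} (h : Good R τ) :
    Good (R + 2 * |l|) (fun y => τ (sg e l y)) := by
  refine ⟨h.meas.comp (sg_cont e l).measurable, fun y => ?_⟩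
  by_cases hy : y ∈ Metric.ball (0:E3) (R + 2 * |l|)
  · rw [indicator_of_mem hy]
    exact h.abs_le_one _
  · rw [indicator_of_notMem hy]
    have h0 : sg e l y ∉ Metric.ball (0:E3) R := by
      intro hc
      apply hy
      rw [Metric.mem_ball] at hc ⊢
      have h1 : dist y (sg e l 0) < R := by
        have := dist_sg he l y (sg e l 0)
        rw [sg_sg he] at this
        rw [← this]; exact hc
      have h2 : dist (sg e l 0) 0 ≤ 2 * |l| := by
        rw [dist_zero_right]
        unfold sg
        rw [inner_zero_right, zero_sub, zero_sub, norm_neg, norm_smul, he, mul_one, Real.norm_eq_abs,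
          abs_mul, abs_neg]
        simp
      calc dist y 0 ≤ dist y (sg e l 0) + dist (sg e l 0) 0 := dist_triangle _ _ _
        _ < R + 2 * |l| := by linarith
    rw [h.zero h0]; simp

/-- moving planes -/
theorem mov (hR : 0 < R) (hQ : Q ⊆ Metric.ball 0 R) {c : ℝ} {τ : E3 → ℝ} (hτ : Ad Q τ)
    (h1 : ∀ᵐ x : E3, V τ x < c → τ x = Q.indicator 1 x) (hle : ∀ x, V τ x ≤ c)
    {e : E3} (he : ‖e‖ = 1) {l : ℝ} (hpol : ∀ x ∈ Q, l < inner ℝ e x → sg e l x ∈ Q) :
    ∀ x, l < inner ℝ e x → V τ x ≤ V τ (sg e l x) := by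
  classical
  set R' := R + 2 * |l| with hR'
  have hRR : R ≤ R' := by rw [hR']; linarith [abs_nonneg l]
  have hR0 : 0 < R' := hR.trans_le hRR
  have g1 : Good R' τ := Good.mono hRR (hτ.good hQ)
  have g2 : Good R' (fun y => τ (sg e l y)) := good_sg he l (hτ.good hQ)
  have hτ0 : ∀ x, 0 ≤ τ x := fun x => (hτ.2 x).1
  have gd : Good R' (fun y => τ y + (-1) * τ (sg e l y)) := by
    refine ⟨g1.meas.add (g2.meas.const_mul (-1)), fun y => ?_⟩
    have a1 := g1.bd y
    have a2 := g2.bd y
    rw [abs_of_nonneg (hτ0 _)] at a1 a2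
    have a3 := hτ0 y
    have a4 := hτ0 (sg e l y)
    rw [abs_le]
    constructor <;> linarith
  set w : E3 → ℝ := fun x => V τ x - V τ (sg e l x) with hw
  have hwV : w = V (fun y => τ y + (-1) * τ (sg e l y)) := by
    funext x
    rw [hw]
    simp only
    rw [V_sg he, V_lin hR0 g1 g2]
    ring
  have hcV : Continuous (V τ) := g1.V_cont hR0
  have hwc : Continuous w := hcV.sub (hcV.comp (sg_cont e l))
  have hHo : IsOpen {x : E3 | l < inner ℝ e x} := isOpen_lt continuous_const (by fun_prop)
  have key := smp hwc (a := 0) hHo ?_ ?_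
  · intro x hx
    have := key x hx
    rw [hw] at this
    simp only at this
    linarith
  · intro a' ha'
    have hcp := g1.compact_ge hR0 ha'
    have hset : {x | x ∈ {x : E3 | l < inner ℝ e x} ∧ a' ≤ w x}
        = {x | a' ≤ V τ x} ∩ ({x : E3 | l ≤ inner ℝ e x} ∩ {x | a' ≤ w x}) := by
      ext x
      simp only [mem_ofPred_eq, mem_inter_iff]
      constructor
      · rintro ⟨hx, hx2⟩
        refine ⟨?_, hx.le, hx2⟩
        have := V_nonneg hτ0 (sg e l x)
        rw [hw] at hx2
        simp only at hx2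
        linarith
      · rintro ⟨_, hx, hx2⟩
        refine ⟨lt_of_le_of_ne hx ?_, hx2⟩
        intro hne
        have hfix : sg e l x = x := by
          unfold sg
          rw [← hne, sub_self, mul_zero, zero_smul, sub_zero]
        rw [hw] at hx2
        simp only at hx2
        rw [hfix, sub_self] at hx2
        linarith
    rw [hset]
    apply hcp.inter_right
    exact (isClosed_le continuous_const (by fun_prop)).inter (isClosed_le continuous_const hwc)
  · intro x hx hwx
    have hopen : IsOpen ({x : E3 | l < inner ℝ e x} ∩ {x | 0 < w x}) :=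
      hHo.inter (isOpen_lt continuous_const hwc)
    obtain ⟨r0, hr0, hb⟩ := Metric.isOpen_iff.1 hopen x ⟨hx, hwx⟩
    refine ⟨r0, hr0, fun r hr hrr => ?_⟩
    rw [hwV]
    refine submean hR0 gd (r0 := r0) ?_ hr hrr
    have h1' : ∀ᵐ y : E3, V τ (sg e l y) < c → τ (sg e l y) = Q.indicator 1 (sg e l y) :=
      (sg_mp he l).quasiMeasurePreserving.ae h1
    filter_upwards [h1'] with y hy hyb
    obtain ⟨hyH, hyw⟩ := hb hyb
    have hyH' : l < inner ℝ e y := hyH
    have hyw' : 0 < V τ y - V τ (sg e l y) := hyw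
    have h3 := hy (by linarith [hle y])
    rw [h3]
    have h4 : τ y ≤ Q.indicator 1 (sg e l y) := by
      refine (hτ.2 y).2.trans ?_
      by_cases hyQ : y ∈ Q
      · rw [indicator_of_mem hyQ, indicator_of_mem (hpol y hyQ hyH')]
        simp
      · rw [indicator_of_notMem hyQ]
        exact ind_nonneg _
    linarith

end Pool.Agent.W784.HS
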