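import Mathlib

set_option autoImplicit false
open MeasureTheory Set Filter Topology
open scoped ENNReal Pointwise

/-! Strictly star-shaped compact sets. -/

namespace Pool.Agent.W784.HS

section
variable {E : Type*} [NormedAddCommGroup E] [NormedSpace ℝ E]

/-- strictly star-shaped compact sets -/
structure SS (K : Set E) : Prop where
  comp : IsCompact K
  ne : K.Nonempty
  star : ∀ x ∈ K, ∀ t : ℝ, 0 ≤ t → t < 1 → t • x ∈ interior K

variable {K : Set E}

theorem SS.zero (h : SS K) : (0 : E) ∈ interior K := by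
  obtain ⟨x, hx⟩ := h.ne
  simpa using h.star x hx 0 le_rfl one_pos

theorem SS.closure_interior (h : SS K) : closure (interior K) = K := by
  apply Subset.antisymm
  · exact closure_minimal interior_subset h.comp.isClosed
  · intro x hx
    have hl : Tendsto (fun t : ℝ => t • x) (𝓝[<] 1) (𝓝 ((1:ℝ) • x)) :=
      (tendsto_nhdsWithin_of_tendsto_nhds (continuous_id.smul continuous_const).continuousAt)
    rw [one_smul] at hl
    refine mem_closure_of_tendsto hl ?_
    have h0 : Ioo (0:ℝ) 1 ∈ 𝓝[<] (1:ℝ) := Ioo_mem_nhdsLT one_pos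
    filter_upwards [h0] with t ht
    exact h.star x hx t ht.1.le ht.2

theorem SS.frontier_interior (h : SS K) : frontier (interior K) = K \ interior K := by
  rw [isOpen_interior.frontier_eq, h.closure_interior]

theorem SS.starConvex (h : SS K) : StarConvex ℝ 0 (interior K) := by
  intro y hy a b ha hb hab
  rw [smul_zero, zero_add]
  rcases eq_or_lt_of_le ha with h0 | h0
  · have : b = 1 := by linarith
    rw [this, one_smul]; exact hy
  · exact h.star y (interior_subset hy) b hb (by linarith)

theorem SS.connected (h : SS K) : IsConnected (interior K) :=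
  (h.starConvex.isPathConnected h.zero).isConnected

theorem SS.not_zero (h : SS K) {x : E} (hx : x ∈ K \ interior K) : x ≠ 0 := by
  rintro rfl
  exact hx.2 h.zero

theorem SS.inj (h : SS K) {x y : E} (hx : x ∈ K \ interior K) (hy : y ∈ K \ interior K)
    (hxy : ‖x‖⁻¹ • x = ‖y‖⁻¹ • y) : x = y := by
  have hx0 : 0 < ‖x‖ := norm_pos_iff.2 (h.not_zero hx)
  have hy0 : 0 < ‖y‖ := norm_pos_iff.2 (h.not_zero hy)
  have e1 : x = (‖x‖ / ‖y‖) • y := by
    rw [div_eq_mul_inv, mul_smul, ← hxy, smul_smul, mul_inv_cancel₀ hx0.ne', one_smul]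
  have e2 : y = (‖y‖ / ‖x‖) • x := by
    rw [div_eq_mul_inv, mul_smul, hxy, smul_smul, mul_inv_cancel₀ hy0.ne', one_smul]
  rcases lt_trichotomy ‖x‖ ‖y‖ with hlt | heq | hlt
  · exfalso
    apply hx.2
    rw [e1]
    exact h.star y hy.1 _ (by positivity) ((div_lt_one hy0).2 hlt)
  · rw [heq, div_self hy0.ne', one_smul] at e1
    exact e1
  · exfalso
    apply hy.2
    rw [e2]
    exact h.star x hx.1 _ (by positivity) ((div_lt_one hx0).2 hlt)

theorem SS.surj (h : SS K) {u : E} (hu : ‖u‖ = 1) : ∃ x ∈ K \ interior K, ‖x‖⁻¹ • x = u := by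
  set I : Set ℝ := {t | 0 ≤ t ∧ t • u ∈ K} with hI
  have hcont : Continuous (fun t : ℝ => t • u) := by fun_prop
  have hIc : IsCompact I := by
    apply Metric.isCompact_of_isClosed_isBounded
    · exact isClosed_Ici.inter (h.comp.isClosed.preimage hcont)
    · obtain ⟨C, hC⟩ := h.comp.isBounded.exists_norm_le
      refine (Metric.isBounded_Icc (0:ℝ) C).subset ?_
      rintro t ⟨ht0, ht⟩
      have := hC _ ht
      rw [norm_smul, hu, mul_one, Real.norm_of_nonneg ht0] at this
      exact ⟨ht0, this⟩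
  have hIne : I.Nonempty := ⟨0, le_rfl, by rw [zero_smul]; exact interior_subset h.zero⟩
  obtain ⟨t, ht, hmax⟩ := hIc.exists_isMaxOn hIne continuous_id.continuousOn
  have hlocal : ∀ s : ℝ, 0 ≤ s → s • u ∈ interior K → ∃ s' ∈ I, s < s' := by
    intro s hs hsK
    have h1 : ∀ᶠ s' in 𝓝 s, s' • u ∈ interior K :=
      hcont.continuousAt.eventually (isOpen_interior.mem_nhds hsK)
    have h2 : ∀ᶠ s' in 𝓝[>] s, s' • u ∈ interior K := h1.filter_mono nhdsWithin_le_nhds
    obtain ⟨s', hs', hgt⟩ := (h2.and self_mem_nhdsWithin).exists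
    exact ⟨s', ⟨hs.trans (le_of_lt hgt), interior_subset hs'⟩, hgt⟩
  have ht0 : 0 < t := by
    obtain ⟨s', hs', hlt⟩ := hlocal 0 le_rfl (by rw [zero_smul]; exact h.zero)
    exact hlt.trans_le (hmax hs')
  refine ⟨t • u, ⟨ht.2, fun hc => ?_⟩, ?_⟩
  · obtain ⟨s', hs', hlt⟩ := hlocal t ht0.le hc
    exact absurd (hmax hs') (not_le.2 hlt)
  · rw [norm_smul, hu, mul_one, Real.norm_of_nonneg ht0.le, smul_smul, inv_mul_cancel₀ ht0.ne',
      one_smul]

theorem SS.homeo (h : SS K) :
    Nonempty ((K \ interior K : Set E) ≃ₜ Metric.sphere (0 : E) 1) := by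
  have hcpt : IsCompact (K \ interior K) := h.comp.diff isOpen_interior
  have : CompactSpace (K \ interior K : Set E) := isCompact_iff_compactSpace.1 hcpt
  let φ : (K \ interior K : Set E) → Metric.sphere (0 : E) 1 := fun x =>
    ⟨‖(x:E)‖⁻¹ • (x:E), by
      have hx0 : 0 < ‖(x:E)‖ := norm_pos_iff.2 (h.not_zero x.2)
      rw [mem_sphere_zero_iff_norm, norm_smul, norm_inv, norm_norm, inv_mul_cancel₀ hx0.ne']⟩
  have hφc : Continuous φ := by
    apply Continuous.subtype_mk
    apply Continuous.smul
    · apply Continuous.inv₀ (by fun_prop)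
      intro x
      exact (norm_pos_iff.2 (h.not_zero x.2)).ne'
    · fun_prop
  have hb : Function.Bijective φ := by
    constructor
    · intro x y hxy
      have := congrArg Subtype.val hxy
      exact Subtype.ext (h.inj x.2 y.2 this)
    · intro u
      obtain ⟨x, hx, hxu⟩ := h.surj (u := (u:E)) (by simpa using u.2)
      exact ⟨⟨x, hx⟩, Subtype.ext hxu⟩
  exact ⟨Continuous.homeoOfEquivCompactToT2 (f := Equiv.ofBijective φ hb) hφc⟩

end

theorem SS.null {K : Set (EuclideanSpace ℝ (Fin 3))} (h : SS K) :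
    volume (K \ interior K) = 0 := by
  have hfin : volume K ≠ ⊤ := h.comp.measure_lt_top.ne
  have hle : ∀ t : ℝ, 0 < t → t < 1 → ENNReal.ofReal (t ^ 3) * volume K ≤ volume (interior K) := by
    intro t ht0 ht1
    have h1 : t • K ⊆ interior K := by
      rintro _ ⟨x, hx, rfl⟩
      exact h.star x hx t ht0.le ht1
    have h2 := measure_mono (μ := volume) h1
    rw [Measure.addHaar_smul] at h2
    have h3 : Module.finrank ℝ (EuclideanSpace ℝ (Fin 3)) = 3 := by simp
    rw [h3, abs_of_pos (by positivity)] at h2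
    exact h2
  have hlim : Tendsto (fun t : ℝ => ENNReal.ofReal (t ^ 3) * volume K) (𝓝[<] 1)
      (𝓝 (ENNReal.ofReal ((1:ℝ) ^ 3) * volume K)) := by
    apply ENNReal.Tendsto.mul_const _ (Or.inr hfin)
    apply ENNReal.tendsto_ofReal
    exact (tendsto_nhdsWithin_of_tendsto_nhds (by
      have : Continuous (fun t : ℝ => t ^ 3) := by fun_prop
      exact this.continuousAt))
  have hKle : volume K ≤ volume (interior K) := by
    have := le_of_tendsto hlim (b := volume (interior K)) (by
      filter_upwards [Ioo_mem_nhdsLT (one_pos : (0:ℝ) < 1)] with t ht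
      exact hle t ht.1 ht.2)
    simpa using this
  rw [measure_sdiff interior_subset isOpen_interior.measurableSet.nullMeasurableSet
    (ne_top_of_le_ne_top hfin (measure_mono interior_subset))]
  exact tsub_eq_zero_of_le hKle

end Pool.Agent.W784.HS
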