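import Pool.Agent.W784.HS.C
import Pool.Agent.W784.HS.D

set_option autoImplicit false
open MeasureTheory Set Filter Topology
open scoped ENNReal

/-! The coincidence set of the union of two balls. -/

namespace Pool.Agent.W784.HS

open Pool.Agent.H283R3.Newt

/-- the shift of the centres -/
noncomputable def pc : E3 := (1/100 : ℝ) • (EuclideanSpace.single (0 : Fin 3) (1:ℝ) : E3)

theorem norm_pc : ‖pc‖ = 1/100 := by
  unfold pc
  rw [norm_smul]
  simp

/-- the union of two balls -/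
def QQ : Set E3 := Metric.ball pc 1 ∪ Metric.ball (-pc) 1

theorem QQ_open : IsOpen QQ := Metric.isOpen_ball.union Metric.isOpen_ball

theorem QQ_sub : QQ ⊆ Metric.ball (0:E3) (101/100) := by
  intro x hx
  rw [mem_ball_zero_iff]
  rcases hx with hx | hx
  · rw [Metric.mem_ball, dist_eq_norm] at hx
    calc ‖x‖ = ‖(x - pc) + pc‖ := by congr 1; abel
      _ ≤ ‖x - pc‖ + ‖pc‖ := norm_add_le _ _
      _ < 101/100 := by rw [norm_pc]; linarith
  · rw [Metric.mem_ball, dist_eq_norm] at hx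
    calc ‖x‖ = ‖(x - -pc) + -pc‖ := by congr 1; abel
      _ ≤ ‖x - -pc‖ + ‖-pc‖ := norm_add_le _ _
      _ < 101/100 := by rw [norm_neg, norm_pc]; linarith

theorem sub_QQ : Metric.ball (0:E3) (99/100) ⊆ QQ := by
  intro x hx
  left
  rw [mem_ball_zero_iff] at hx
  rw [Metric.mem_ball, dist_eq_norm]
  calc ‖x - pc‖ ≤ ‖x‖ + ‖pc‖ := norm_sub_le _ _
    _ < 1 := by rw [norm_pc]; linarith

theorem ball_pol {q : E3} {e : E3} (he : ‖e‖ = 1) {l : ℝ} (hl : ‖q‖ ≤ l) {x : E3}
    (hx : x ∈ Metric.ball q 1) (hlx : l < inner ℝ e x) : sg e l x ∈ Metric.ball q 1 := by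
  rw [Metric.mem_ball, dist_eq_norm] at hx ⊢
  have h1 : ‖sg e l x - q‖ ^ 2 = ‖x - q‖ ^ 2 - 4 * (inner ℝ e x - l) * (l - inner ℝ e q) := by
    have : sg e l x - q = (x - q) - (2 * (inner ℝ e x - l)) • e := by unfold sg; abel
    have h0 : inner ℝ (x - q) e = inner ℝ e x - inner ℝ e q := by
      rw [real_inner_comm, inner_sub_right]
    rw [this, norm_sub_sq_real, norm_smul, he, inner_smul_right, h0,
      Real.norm_eq_abs, mul_one, sq_abs]
    ring
  have h2 : inner ℝ e q ≤ l := by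
    have := real_inner_le_norm e q
    rw [he, one_mul] at this
    linarith
  have h3 : 0 ≤ 4 * (inner ℝ e x - l) * (l - inner ℝ e q) := by
    apply mul_nonneg
    · linarith
    · linarith
  have h4 : ‖sg e l x - q‖ ^ 2 ≤ ‖x - q‖ ^ 2 := by linarith
  exact (le_of_sq_le_sq h4 (norm_nonneg _)).trans_lt hx

theorem QQ_pol {e : E3} (he : ‖e‖ = 1) {l : ℝ} (hl : 1/100 ≤ l) :
    ∀ x ∈ QQ, l < inner ℝ e x → sg e l x ∈ QQ := by
  rintro x (hx | hx) hlx
  · left
    exact ball_pol he (by rw [norm_pc]; exact hl) hx hlx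
  · right
    exact ball_pol he (by rw [norm_neg, norm_pc]; exact hl) hx hlx

/-- the level -/
noncomputable def cc : ℝ := 8 * Real.pi / 5

theorem cc_pos : 0 < cc := by unfold cc; positivity

/-- the density of the shell -/
theorem exists_rho : ∃ τ : E3 → ℝ, Ad QQ τ ∧ (∀ᵐ x : E3, V τ x < cc → τ x = QQ.indicator 1 x) ∧
    (∀ x, V τ x ≤ cc) ∧
    ∀ x y : E3, ‖x - y‖ / 50 ≤ ‖x‖ ^ 2 - ‖y‖ ^ 2 → V τ x ≤ V τ y := by
  have hR : (0:ℝ) < 101/100 := by norm_num
  obtain ⟨τ, h1, h2, h3⟩ := exists_EL hR QQ_sub QQ_open.measurableSet cc cc_pos.le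
  have h4 := V_le hR cc_pos.le (h1.good QQ_sub) h3
  refine ⟨τ, h1, h2, h4, fun x y hxy => ?_⟩
  by_cases hne : x = y
  · rw [hne]
  have hn : 0 < ‖x - y‖ := norm_pos_iff.2 (sub_ne_zero.2 hne)
  set e : E3 := (‖x - y‖)⁻¹ • (x - y) with he
  have he1 : ‖e‖ = 1 := by
    rw [he, norm_smul, norm_inv, norm_norm, inv_mul_cancel₀ hn.ne']
  set l : ℝ := (‖x‖ ^ 2 - ‖y‖ ^ 2) / (2 * ‖x - y‖) with hl
  have hl1 : 1/100 ≤ l := by
    rw [hl, le_div_iff₀ (by positivity)]
    linarith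
  have hex : inner ℝ e x - l = ‖x - y‖ / 2 := by
    have h5 : inner ℝ e x = (‖x‖ ^ 2 - inner ℝ y x) / ‖x - y‖ := by
      rw [he, real_inner_smul_left, inner_sub_left, real_inner_self_eq_norm_sq]
      field_simp
    have h6 : ‖x - y‖ ^ 2 = ‖x‖ ^ 2 - 2 * inner ℝ y x + ‖y‖ ^ 2 := by
      rw [norm_sub_sq_real, real_inner_comm]
    rw [h5, hl]
    field_simp
    linarith
  have hsg : sg e l x = y := by
    unfold sg
    rw [hex, he, smul_smul]
    have : 2 * (‖x - y‖ / 2) * ‖x - y‖⁻¹ = 1 := by field_simp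
    rw [this, one_smul]
    abel
  have := mov hR QQ_sub h1 h2 h4 he1 (QQ_pol he1 hl1) x (by linarith)
  rwa [hsg] at this

theorem interior_zero {R : ℝ} (hR : 0 < R) {τ : E3 → ℝ} (h : Good R τ) (h0 : ∀ x, 0 ≤ τ x) {c : ℝ}
    {L : Set E3} (hL : ∀ x ∈ L, V τ x = c) : volume {x | x ∈ interior L ∧ τ x ≠ 0} = 0 := by
  apply measure_null_of_locally_null
  rintro x ⟨hx, -⟩
  obtain ⟨r, hr, hb⟩ := Metric.isOpen_iff.1 isOpen_interior x hx
  have hms : MeasurableSet {y : E3 | y ∈ Metric.ball x r ∧ τ y ≠ 0} :=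
    Metric.isOpen_ball.measurableSet.inter (h.meas (measurableSet_singleton (0:ℝ)).compl)
  refine ⟨{y | y ∈ Metric.ball x r ∧ τ y ≠ 0}, ?_, ?_⟩
  · have : Metric.ball x r ∈ 𝓝[{x | x ∈ interior L ∧ τ x ≠ 0}] x :=
      nhdsWithin_le_nhds (Metric.ball_mem_nhds x hr)
    filter_upwards [this, self_mem_nhdsWithin] with y hy1 hy2
    exact ⟨hy1, hy2.2⟩
  · have h1 := h.mean_diff hR hr x
    have hVx : V τ x = c := hL x (interior_subset hx)
    have hmean : ∫ z in Metric.ball x r, V τ z = c * vb r := by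
      have : ∫ z in Metric.ball x r, V τ z = ∫ z in Metric.ball x r, c :=
        setIntegral_congr_fun Metric.isOpen_ball.measurableSet
          (fun z hz => hL z (interior_subset (hb hz)))
      rw [this, setIntegral_const, measureReal_def, vol_ball hr,
        ENNReal.toReal_ofReal (vb_pos hr).le, smul_eq_mul, mul_comm]
    rw [hVx, hmean, mul_div_cancel_right₀ _ (vb_pos hr).ne', sub_self] at h1
    have hne : ∀ᵐ y : E3, y ≠ x := by simp [ae_iff]
    have hnn : 0 ≤ᵐ[volume] fun y => τ y * kr r (dist x y) := by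
      filter_upwards [hne] with y hy
      exact mul_nonneg (h0 y) (kr_nonneg hr (dist_pos.2 hy.symm))
    have hz := (integral_eq_zero_iff_of_nonneg_ae hnn (kr_int hR h hr x)).1 h1.symm
    have : ∀ᵐ y : E3, ¬ (y ∈ Metric.ball x r ∧ τ y ≠ 0) := by
      filter_upwards [hz, hne] with y hy hyx hcon
      have hd : 0 < dist x y := dist_pos.2 hyx.symm
      have hlt : dist x y < r := by rw [dist_comm]; exact hcon.1
      have hy' : τ y * kr r (dist x y) = 0 := hy
      rcases mul_eq_zero.1 hy' with h5 | h5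
      · exact hcon.2 h5
      · exact (kr_pos hd hlt).ne' h5
    rw [ae_iff] at this
    simpa using this

end Pool.Agent.W784.HS
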